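import Mathlib

open Set

universe u v

namespace Pool.Agent.Lib.MP_53fefd_al

/-- The space `G_n` of `n`-generated marked groups, as the set of normal subgroups of the free group
`F_n`; the marked group of `N` is `F_n / N` with the images of the free generators. -/
def Marked (n : ℕ) : Type := {N : Subgroup (FreeGroup (Fin n)) // N.Normal}

namespace Marked

variable {n : ℕ}

instance normal (N : Marked n) : N.1.Normal := N.2

/-- The group `F_n / N`. -/
abbrev Grp (N : Marked n) : Type := FreeGroup (Fin n) ⧸ N.1

open Classical in
/-- The indicator function of `N`, a point of `2^{F_n}`. -/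
noncomputable def ind (N : Marked n) : FreeGroup (Fin n) → Bool := fun w => decide (w ∈ N.1)

/-- The topology of the space of marked groups: induced from the product topology on
`2^{F_n}` (with the discrete topology on the two point set). -/
noncomputable instance : TopologicalSpace (Marked n) :=
  TopologicalSpace.induced ind Pi.topologicalSpace

end Marked

/-- A group is virtually cyclic if it has a cyclic subgroup of finite index. -/
def VirtCyclic (G : Type v) [Group G] : Prop := ∃ g : G, (Subgroup.zpowers g).FiniteIndex

/-- Gromov's four point condition with constant `δ`. A geodesic metric space is hyperbolic if it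
satisfies this condition for some `δ`. -/
def Hyp4 (S : Type u) [PseudoMetricSpace S] (δ : ℝ) : Prop :=
  ∀ x y z w : S, dist x y + dist z w ≤ max (dist x z + dist y w) (dist x w + dist y z) + 2 * δ

/-- Geodesic metric spaces: any two points are joined by a geodesic (an isometric embedding of the
interval `[0, d(x, y)]`). -/
def IsGeodesicSpace (S : Type u) [PseudoMetricSpace S] : Prop :=
  ∀ x y : S, ∃ γ : ℝ → S, γ 0 = x ∧ γ (dist x y) = y ∧
    ∀ s ∈ Icc 0 (dist x y), ∀ t ∈ Icc 0 (dist x y), dist (γ s) (γ t) = |s - t|

/-- Acylindrical actions: for every `ε > 0` there are `R > 0` and `N` such that whenever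
`d(x, y) ≥ R`, at most `N` elements `g` satisfy `d(x, g x) ≤ ε` and `d(y, g y) ≤ ε`. -/
def Acylindrical (G : Type v) (S : Type u) [Group G] [PseudoMetricSpace S] [MulAction G S] : Prop :=
  ∀ ε : ℝ, 0 < ε → ∃ R : ℝ, 0 < R ∧ ∃ N : ℕ, ∀ x y : S, R ≤ dist x y →
    {g : G | dist x (g • x) ≤ ε ∧ dist y (g • y) ≤ ε}.encard ≤ N

/-- A group `G` is acylindrically hyperbolic if it admits a non-elementary acylindrical action by
isometries on a hyperbolic geodesic metric space `S`. An acylindrical action on a hyperbolic space
is non-elementary iff `G` is not virtually cyclic and its orbits are unbounded. -/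
def AcylHyp (G : Type v) [Group G] : Prop :=
  ¬ VirtCyclic G ∧
  ∃ (S : Type u) (_ : MetricSpace S) (_ : MulAction G S),
    (∀ (g : G) (x y : S), dist (g • x) (g • y) = dist x y) ∧
    IsGeodesicSpace S ∧ (∃ δ : ℝ, Hyp4 S δ) ∧ Acylindrical G S ∧
    ∃ x : S, ∀ M : ℝ, ∃ g : G, M < dist x (g • x)

end Pool.Agent.Lib.MP_53fefd_al
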