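import Mathlib
import Pool.Agent.Lib.MP_53fefd_al.Defs

open Set

namespace Pool.Agent.Lib.MP_53fefd_al

lemma Hyp4.nonneg {S : Type*} [PseudoMetricSpace S] {δ : ℝ} (h : Hyp4 S δ) (x : S) : 0 ≤ δ := by
  have := h x x x x
  simp at this
  exact this

lemma Hyp4.cases {S : Type*} [PseudoMetricSpace S] {δ : ℝ} (h : Hyp4 S δ) (x y z w : S) :
    dist x y + dist z w ≤ dist x z + dist y w + 2 * δ ∨
    dist x y + dist z w ≤ dist x w + dist y z + 2 * δ := by
  have h1 := h x y z w
  rcases max_cases (dist x z + dist y w) (dist x w + dist y z) with ⟨h2, _⟩ | ⟨h2, _⟩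
  · left; rw [h2] at h1; exact h1
  · right; rw [h2] at h1; exact h1

section Action

variable {S : Type*} [PseudoMetricSpace S] {G : Type*} [Group G] [MulAction G S]

/-- Local to global principle for powers. -/
lemma local_global {δ : ℝ} (hyp : Hyp4 S δ) (hiso : ∀ (g : G) (x y : S), dist (g • x) (g • y) = dist x y)
    (h : G) (x : S) {η : ℝ} (hη : 0 < η)
    (h2 : dist x (h • x) + 2 * δ + η ≤ dist x (h ^ 2 • x)) (k : ℕ) :
    dist x (h ^ (k + 1) • x) + η ≤ dist x (h ^ (k + 2) • x) := by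
  have hδ := hyp.nonneg x
  have hsh : ∀ i j : ℕ, dist (h ^ i • x) (h ^ (i + j) • x) = dist x (h ^ j • x) := by
    intro i j
    rw [pow_add, mul_smul, hiso]
  induction k with
  | zero =>
    simp only [zero_add, pow_one]
    linarith
  | succ k ih =>
    have e1 := hsh 1 (k + 2)
    have e2 := hsh 2 (k + 1)
    have e3 := hsh 1 1
    have h3 := hyp.cases x (h ^ 2 • x) (h ^ 1 • x) (h ^ (k + 3) • x)
    have e4 : (1 : ℕ) + (k + 2) = k + 3 := by ring
    have e5 : (2 : ℕ) + (k + 1) = k + 3 := by ring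
    have e6 : (1 : ℕ) + 1 = 2 := rfl
    rw [e4] at e1
    rw [e5] at e2
    rw [e6] at e3
    rw [dist_comm (h ^ 1 • x)] at e3
    rw [e1, e2, e3] at h3
    simp only [pow_one] at h3
    show dist x (h ^ (k + 2) • x) + η ≤ dist x (h ^ (k + 3) • x)
    rcases h3 with h3 | h3
    · linarith
    · linarith

lemma local_global' {δ : ℝ} (hyp : Hyp4 S δ)
    (hiso : ∀ (g : G) (x y : S), dist (g • x) (g • y) = dist x y)
    (h : G) (x : S) {η : ℝ} (hη : 0 < η)
    (h2 : dist x (h • x) + 2 * δ + η ≤ dist x (h ^ 2 • x)) (k : ℕ) :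
    k * η ≤ dist x (h ^ (k + 1) • x) := by
  induction k with
  | zero =>
    rw [Nat.cast_zero, zero_mul]
    exact dist_nonneg
  | succ k ih =>
    have := local_global hyp hiso h x hη h2 k
    push_cast
    linarith

/-- A point of the translated geodesic is close to the geodesic. -/
lemma close_aux {δ ε s D : ℝ} (hyp : Hyp4 S δ) {x y x1 y1 z : S} (hxy : dist x y = D)
    (hx : dist x x1 ≤ ε) (hy : dist y y1 ≤ ε) (h1 : dist x1 z = s) (h2 : dist z y1 = D - s)
    (h3 : dist x1 y1 = D) (hs : ε + 2 * δ < s) (hs' : ε + 2 * δ < D - s) :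
    dist x z + dist z y ≤ D + 4 * δ := by
  have hδ := hyp.nonneg x
  have t1 : dist x z ≥ s - ε := by
    have := dist_triangle x1 x z
    rw [dist_comm x1 x] at this
    linarith
  have t2 : dist z y ≥ D - s - ε := by
    have := dist_triangle z y y1
    linarith
  have a1 : dist x z + D - s - 2 * δ ≤ dist x y1 := by
    rcases hyp.cases z x x1 y1 with h | h
    · rw [h3, dist_comm z x, dist_comm z x1, h1] at h
      linarith
    · rw [h3, dist_comm z x, h2] at h
      linarith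
  rcases hyp.cases z y x y1 with h | h
  · rw [dist_comm z x] at h
    linarith
  · rw [h2, dist_comm y x, hxy] at h
    linarith

/-- A point almost on a geodesic is close to the corresponding point. -/
lemma close_point {δ D c : ℝ} (hyp : Hyp4 S δ) {x y z p : S} (hxy : dist x y = D)
    (hz : dist x z + dist z y ≤ D + c) (hc : 0 ≤ c) (hp : dist x p = dist x z)
    (hp' : dist p y = D - dist x z) :
    dist z p ≤ c + 2 * δ := by
  rcases hyp.cases z p x y with h | h
  · rw [hxy, hp', dist_comm z x] at h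
    linarith
  · rw [hxy, dist_comm p x, hp] at h
    linarith

/-- Acylindricity at one scale implies acylindricity. -/
lemma acylindrical_of_single {δ : ℝ} (hgeo : IsGeodesicSpace S) (hyp : Hyp4 S δ)
    (hiso : ∀ (g : G) (x y : S), dist (g • x) (g • y) = dist x y) {R0 : ℝ} (hR0 : 0 ≤ R0) {N0 : ℕ}
    (h0 : ∀ x y : S, R0 < dist x y →
      {g : G | dist x (g • x) < 12 * δ + 2 ∧ dist y (g • y) < 12 * δ + 2}.encard ≤ N0) :
    Acylindrical G S := by
  classical
  intro ε hε
  rcases isEmpty_or_nonempty S with hS | ⟨⟨x0⟩⟩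
  · exact ⟨1, one_pos, 0, fun x => (hS.false x).elim⟩
  have hδ := hyp.nonneg x0
  set s1 := ε + 2 * δ + 1 with hs1
  set s2 := s1 + R0 + 1 with hs2
  set J : Finset (ℤ × ℤ) := Finset.Icc ⌊s1 - ε⌋ ⌊s1 + ε⌋ ×ˢ Finset.Icc ⌊s2 - ε⌋ ⌊s2 + ε⌋ with hJ
  refine ⟨s2 + ε + 2 * δ + 1, by positivity, J.card * N0, ?_⟩
  intro x y hxy
  obtain ⟨γ, hγ0, hγ1, hγ⟩ := hgeo x y
  set D := dist x y with hD
  have hmem : ∀ {t : ℝ}, 0 ≤ t → t ≤ D → t ∈ Icc 0 D := fun h1 h2 => ⟨h1, h2⟩
  have m0 : (0 : ℝ) ∈ Icc 0 D := ⟨le_rfl, dist_nonneg⟩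
  have m1 : D ∈ Icc 0 D := ⟨dist_nonneg, le_rfl⟩
  have dx : ∀ t, 0 ≤ t → t ≤ D → dist x (γ t) = t := by
    intro t h1 h2
    rw [← hγ0, hγ 0 m0 t ⟨h1, h2⟩, zero_sub, abs_neg, abs_of_nonneg h1]
  have dy : ∀ t, 0 ≤ t → t ≤ D → dist (γ t) y = D - t := by
    intro t h1 h2
    rw [← hγ1, hγ t ⟨h1, h2⟩ D m1, abs_sub_comm, abs_of_nonneg (by linarith)]
  -- the key estimate
  have key : ∀ g : G, dist x (g • x) ≤ ε → dist y (g • y) ≤ ε → ∀ s, ε + 2 * δ < s →
      ε + 2 * δ < D - s → dist (g • γ s) (γ (dist x (g • γ s))) ≤ 6 * δ := by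
    intro g hg1 hg2 s hs hs'
    have hs0 : 0 ≤ s := by linarith
    have hsD : s ≤ D := by linarith
    have e1 : dist (g • x) (g • γ s) = s := by rw [hiso, dx s hs0 hsD]
    have e2 : dist (g • γ s) (g • y) = D - s := by rw [hiso, dy s hs0 hsD]
    have e3 : dist (g • x) (g • y) = D := by rw [hiso]
    have c1 := close_aux hyp hD.symm hg1 hg2 e1 e2 e3 hs hs'
    have t1 : dist x (g • γ s) ≤ s + ε := by
      have := dist_triangle x (g • x) (g • γ s)
      linarith
    have t2 : dist x (g • γ s) ≤ D := by linarith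
    have c2 := close_point hyp hD.symm c1 (by linarith) (dx _ dist_nonneg t2)
      (dy _ dist_nonneg t2)
    linarith
  have hs1D : ε + 2 * δ < D - s1 := by linarith
  have hs2D : ε + 2 * δ < D - s2 := by linarith
  have hs1p : ε + 2 * δ < s1 := by linarith
  have hs2p : ε + 2 * δ < s2 := by linarith
  by_contra hcon
  push Not at hcon
  have hcon' : ((J.card * N0 + 1 : ℕ) : ℕ∞) ≤
      {g : G | dist x (g • x) ≤ ε ∧ dist y (g • y) ≤ ε}.encard := by
    exact Order.add_one_le_of_lt hcon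
  obtain ⟨t, htsub, htcard⟩ := Set.exists_subset_encard_eq hcon'
  have htfin : t.Finite := Set.finite_of_encard_eq_coe htcard
  lift t to Finset G using htfin
  rw [Set.encard_coe_eq_coe_finsetCard, Nat.cast_inj] at htcard
  let κ : G → ℤ × ℤ := fun g => (⌊dist x (g • γ s1)⌋, ⌊dist x (g • γ s2)⌋)
  have hmaps : ∀ g ∈ t, κ g ∈ J := by
    intro g hg
    obtain ⟨hg1, hg2⟩ := htsub hg
    have b : ∀ s, 0 ≤ s → s ≤ D → s - ε ≤ dist x (g • γ s) ∧ dist x (g • γ s) ≤ s + ε := by
      intro s h1 h2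
      have e1 : dist (g • x) (g • γ s) = s := by rw [hiso, dx s h1 h2]
      have t1 := dist_triangle x (g • x) (g • γ s)
      have t2 := dist_triangle (g • x) x (g • γ s)
      rw [dist_comm (g • x) x] at t2
      constructor <;> linarith
    obtain ⟨b1, b2⟩ := b s1 (by linarith) (by linarith)
    obtain ⟨b3, b4⟩ := b s2 (by linarith) (by linarith)
    rw [hJ, Finset.mem_product, Finset.mem_Icc, Finset.mem_Icc]
    exact ⟨⟨Int.floor_le_floor b1, Int.floor_le_floor b2⟩,
      ⟨Int.floor_le_floor b3, Int.floor_le_floor b4⟩⟩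
  obtain ⟨c, -, hc⟩ := Finset.exists_lt_card_fiber_of_mul_lt_card_of_maps_to hmaps
    (n := N0) (by omega)
  obtain ⟨g0, hg0⟩ : (t.filter fun g => κ g = c).Nonempty := by
    rw [← Finset.card_pos]
    omega
  rw [Finset.mem_filter] at hg0
  have hB := h0 (γ s1) (γ s2) (by
    rw [hγ s1 ⟨by linarith, by linarith⟩ s2 ⟨by linarith, by linarith⟩, abs_sub_comm,
      abs_of_nonneg (by linarith)]
    linarith)
  have himg : (((t.filter fun g => κ g = c).image fun g => g0⁻¹ * g : Finset G) : Set G) ⊆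
      {g : G | dist (γ s1) (g • γ s1) < 12 * δ + 2 ∧ dist (γ s2) (g • γ s2) < 12 * δ + 2} := by
    intro f hf
    rw [Finset.mem_coe, Finset.mem_image] at hf
    obtain ⟨g, hg, rfl⟩ := hf
    rw [Finset.mem_filter] at hg
    obtain ⟨hg1, hg2⟩ := htsub hg.1
    obtain ⟨hg01, hg02⟩ := htsub hg0.1
    have hκ : κ g = κ g0 := hg.2.trans hg0.2.symm
    have hk1 : ⌊dist x (g • γ s1)⌋ = ⌊dist x (g0 • γ s1)⌋ := congrArg Prod.fst hκ
    have hk2 : ⌊dist x (g • γ s2)⌋ = ⌊dist x (g0 • γ s2)⌋ := congrArg Prod.snd hκ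
    have main : ∀ s, ε + 2 * δ < s → ε + 2 * δ < D - s →
        ⌊dist x (g • γ s)⌋ = ⌊dist x (g0 • γ s)⌋ → dist (γ s) ((g0⁻¹ * g) • γ s) < 12 * δ + 2 := by
      intro s hs hs' hfl
      have k1 := key g hg1 hg2 s hs hs'
      have k2 := key g0 hg01 hg02 s hs hs'
      have hab := Int.abs_sub_lt_one_of_floor_eq_floor hfl
      have r : ∀ f : G, dist x (f • x) ≤ ε → 0 ≤ dist x (f • γ s) ∧ dist x (f • γ s) ≤ D := by
        intro f hf
        have e1 : dist (f • x) (f • γ s) = s := by rw [hiso, dx s (by linarith) (by linarith)]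
        have t1 := dist_triangle x (f • x) (f • γ s)
        exact ⟨dist_nonneg, by linarith⟩
      have e4 := hγ _ (r g hg1) _ (r g0 hg01)
      have e5 : dist (γ s) ((g0⁻¹ * g) • γ s) = dist (g0 • γ s) (g • γ s) := by
        rw [← hiso g0 (γ s), smul_smul, mul_inv_cancel_left]
      rw [e5]
      have t1 := dist_triangle4 (g0 • γ s) (γ (dist x (g0 • γ s))) (γ (dist x (g • γ s))) (g • γ s)
      rw [dist_comm (γ (dist x (g • γ s))) (g • γ s),
        dist_comm (γ (dist x (g0 • γ s))) (γ (dist x (g • γ s))), e4] at t1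
      linarith
    exact ⟨main s1 hs1p hs1D hk1, main s2 hs2p hs2D hk2⟩
  have hle := (Set.encard_le_encard himg).trans hB
  rw [Set.encard_coe_eq_coe_finsetCard, Finset.card_image_of_injective _ (mul_right_injective g0⁻¹),
    Nat.cast_le] at hle
  omega

lemma exists_two_pow (a b : ℝ) : ∃ j : ℕ, a + b * j < 2 ^ j := by
  set i := ⌈|a| + 2 * |b|⌉₊ with hi
  have h1 : |a| + 2 * |b| ≤ i := Nat.le_ceil _
  have h2 : ((i : ℝ) + 1) ≤ 2 ^ i := by
    have := Nat.lt_two_pow_self (n := i)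
    exact_mod_cast this
  refine ⟨2 * i, ?_⟩
  have h3 : ((i : ℝ) + 1) ^ 2 ≤ (2 : ℝ) ^ (2 * i) := by
    rw [mul_comm 2 i, pow_mul]
    exact pow_le_pow_left₀ (by positivity) h2 2
  have h4 : (0 : ℝ) ≤ i := Nat.cast_nonneg i
  have h5 : 2 * |b| ≤ i := by linarith [abs_nonneg a]
  have h6 : |a| ≤ i := by linarith [abs_nonneg b]
  have h7 : b * ((2 * i : ℕ) : ℝ) ≤ i * i := by
    push_cast
    nlinarith [le_abs_self b]
  have h8 : a ≤ i := (le_abs_self a).trans h6
  nlinarith

/-- If no element satisfies the certificate at `o`, then no element satisfies it anywhere. -/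
lemma no_certificate {δ : ℝ} (hyp : Hyp4 S δ)
    (hiso : ∀ (g : G) (x y : S), dist (g • x) (g • y) = dist x y) (o : S)
    (hNL : ∀ g : G, dist o (g ^ 2 • o) < dist o (g • o) + 2 * δ + 1) (h : G) (p : S) :
    dist p (h ^ 2 • p) < dist p (h • p) + 2 * δ + 1 := by
  by_contra hcon
  push Not at hcon
  have hpow : ∀ j : ℕ, dist o (h ^ (2 ^ j) • o) ≤ dist o (h • o) + j * (2 * δ + 1) := by
    intro j
    induction j with
    | zero => simp
    | succ j ih =>
      have h1 := hNL (h ^ (2 ^ j))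
      rw [← pow_mul, ← pow_succ] at h1
      push_cast
      linarith
  have hlg := fun k : ℕ => local_global' hyp hiso h p (η := 1) one_pos hcon k
  obtain ⟨j, hj⟩ := exists_two_pow (1 + 2 * dist o p + dist o (h • o)) (2 * δ + 1)
  have h1 := hlg (2 ^ j - 1)
  have h2 : 2 ^ j - 1 + 1 = 2 ^ j := Nat.sub_add_cancel (Nat.one_le_two_pow)
  rw [h2] at h1
  have h3 : ((2 ^ j - 1 : ℕ) : ℝ) = 2 ^ j - 1 := by
    rw [Nat.cast_sub Nat.one_le_two_pow]
    push_cast
    rfl
  rw [h3] at h1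
  have h4 := dist_triangle4 p o (h ^ (2 ^ j) • o) (h ^ (2 ^ j) • p)
  rw [hiso, dist_comm p o] at h4
  have h5 := hpow j
  linarith

/-- Displacement along a long geodesic when there is no certificate. -/
lemma displacement {δ : ℝ} (hyp : Hyp4 S δ)
    (hiso : ∀ (g : G) (x y : S), dist (g • x) (g • y) = dist x y) (o : S)
    (hNL : ∀ g : G, dist o (g ^ 2 • o) < dist o (g • o) + 2 * δ + 1) {L L0 : ℝ} (g : G)
    (hL : dist o (g • o) = L) (γ : ℝ → S) (h0 : γ 0 = o) (h1 : γ L = g • o)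
    (hγ : ∀ s ∈ Icc 0 L, ∀ t ∈ Icc 0 L, dist (γ s) (γ t) = |s - t|)
    (h : G) (hh : dist o (h • o) ≤ L0) (t : ℝ) (ht : 2 * L0 + δ < t)
    (htL : 2 * (t + 3 * L0) ≤ L - L0 - 2 * δ - 1) :
    dist (γ t) (h • γ t) ≤ 34 * δ + 1 := by
  have hδ := hyp.nonneg o
  have hL0 : 0 ≤ L0 := dist_nonneg.trans hh
  have hLp : 0 ≤ L := hL ▸ dist_nonneg
  have m0 : (0 : ℝ) ∈ Icc 0 L := ⟨le_rfl, hLp⟩
  have m1 : L ∈ Icc 0 L := ⟨hLp, le_rfl⟩
  have dx : ∀ t, 0 ≤ t → t ≤ L → dist o (γ t) = t := by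
    intro t h3 h4
    rw [← h0, hγ 0 m0 t ⟨h3, h4⟩, zero_sub, abs_neg, abs_of_nonneg h3]
  have dy : ∀ t, 0 ≤ t → t ≤ L → dist (γ t) (g • o) = L - t := by
    intro t h3 h4
    rw [← h1, hγ t ⟨h3, h4⟩ L m1, abs_sub_comm, abs_of_nonneg (by linarith)]
  -- claim 1
  have c1 : ∀ h : G, dist o (h • o) ≤ L0 →
      dist (g • o) ((h * g) • o) ≤ dist o ((h * g) • o) + L0 + 4 * δ + 1 := by
    intro h hh
    have e1 : dist o (g⁻¹ • o) = L := by
      rw [← hiso g, smul_smul, mul_inv_cancel, one_smul, dist_comm, hL]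
    have n1 := hNL g
    have e2 : dist (g⁻¹ • o) (g • o) = dist o (g ^ 2 • o) := by
      rw [← hiso g, smul_smul, smul_smul, mul_inv_cancel, one_smul, pow_two]
    have n2 := hNL (h * g)
    have e3 : dist ((h * g)⁻¹ • o) ((h * g) • o) = dist o ((h * g) ^ 2 • o) := by
      rw [← hiso (h * g), smul_smul, smul_smul, mul_inv_cancel, one_smul, pow_two]
    have e4 : dist (g⁻¹ • o) ((h * g)⁻¹ • o) ≤ L0 := by
      have : dist (g⁻¹ • o) ((h * g)⁻¹ • o) = dist o (h • o) := by
        rw [← hiso (h * g), smul_smul, smul_smul, mul_inv_cancel, one_smul, mul_assoc,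
          mul_inv_cancel, mul_one, dist_comm]
      rw [this]
      exact hh
    have t1 := dist_triangle (g⁻¹ • o) ((h * g)⁻¹ • o) ((h * g) • o)
    rcases hyp.cases o (g⁻¹ • o) (g • o) ((h * g) • o) with h4 | h4
    · rw [e1, hL] at h4
      linarith
    · rw [e1, e2] at h4
      linarith
  have basic : ∀ h : G, dist o (h • o) ≤ L0 → ∀ t, 0 ≤ t → t ≤ L →
      dist (h • o) (h • γ t) = t ∧ dist (h • γ t) ((h * g) • o) = L - t ∧
      t - L0 ≤ dist o (h • γ t) ∧ dist o (h • γ t) ≤ t + L0 := by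
    intro h hh t h3 h4
    have e1 : dist (h • o) (h • γ t) = t := by rw [hiso, dx t h3 h4]
    have e2 : dist (h • γ t) ((h * g) • o) = L - t := by rw [mul_smul, hiso, dy t h3 h4]
    have t1 := dist_triangle o (h • o) (h • γ t)
    have t2 := dist_triangle (h • o) o (h • γ t)
    rw [dist_comm (h • o) o] at t2
    exact ⟨e1, e2, by linarith, by linarith⟩
  -- claim A
  have cA : ∀ h : G, dist o (h • o) ≤ L0 → ∀ t, L0 + δ < t →
      2 * (t + L0) ≤ L - L0 - 2 * δ - 1 → dist (h • γ t) (γ (dist o (h • γ t))) ≤ 6 * δ := by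
    intro h hh t ht htL
    have ht0 : 0 ≤ t := by linarith
    have htL' : t ≤ L := by linarith
    obtain ⟨e1, e2, t1, t2⟩ := basic h hh t ht0 htL'
    have k1 := c1 h hh
    have e5 : dist (h • o) ((h * g) • o) = L := by rw [mul_smul, hiso, hL]
    have a1 : dist o (h • γ t) + L - t - 2 * δ ≤ dist o ((h * g) • o) := by
      rcases hyp.cases o (h • γ t) (h • o) ((h * g) • o) with h4 | h4
      · rw [e5, e2] at h4
        linarith
      · rw [e5, dist_comm (h • γ t) (h • o), e1] at h4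
        linarith
    have a2 : dist (h • γ t) (g • o) ≤ L - dist o (h • γ t) + 4 * δ := by
      rcases hyp.cases (h • γ t) (g • o) o ((h * g) • o) with h4 | h4
      · rw [dist_comm (h • γ t) o] at h4
        linarith
      · rw [e2, dist_comm (g • o) o, hL] at h4
        linarith
    have hr : dist o (h • γ t) ≤ L := by linarith
    exact (close_point hyp hL (c := 4 * δ) (by linarith) (by linarith)
      (dx _ dist_nonneg hr) (dy _ dist_nonneg hr)).trans (by linarith)
  -- claim B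
  have cB : ∀ h : G, dist o (h • o) ≤ L0 → ∀ t t1, L0 + δ < t → t ≤ t1 → t1 ≤ L →
      dist o (h • γ t) + (t1 - t) - 2 * δ ≤ dist o (h • γ t1) := by
    intro h hh t t1 ht htt ht1
    obtain ⟨e1, e2, b1, b2⟩ := basic h hh t (by linarith) (by linarith)
    obtain ⟨f1, f2, d1, d2⟩ := basic h hh t1 (by linarith) ht1
    have e6 : dist (h • γ t) (h • γ t1) = t1 - t := by
      rw [hiso, hγ t ⟨by linarith, by linarith⟩ t1 ⟨by linarith, by linarith⟩, abs_sub_comm,
        abs_of_nonneg (by linarith)]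
    rcases hyp.cases o (h • γ t) (h • o) (h • γ t1) with h4 | h4
    · rw [f1, e6] at h4
      linarith
    · rw [f1, dist_comm (h • γ t) (h • o), e1] at h4
      linarith
  -- claim C
  have cC : ∀ h : G, dist o (h • o) ≤ L0 → ∀ t, L0 + δ < t →
      2 * (t + 2 * L0) ≤ L - L0 - 2 * δ - 1 → dist o (h • γ t) - t < 22 * δ + 1 := by
    intro h hh t ht htL
    by_contra hcon
    push Not at hcon
    obtain ⟨e1, e2, b1, b2⟩ := basic h hh t (by linarith) (by linarith)
    have k1 := cA h hh t ht (by linarith)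
    set t' := dist o (h • γ t) with ht'
    have k2 := cB h hh t t' ht (by linarith) (by linarith)
    rw [← ht'] at k2
    obtain ⟨f1, f2, d1, d2⟩ := basic h hh t' (by linarith) (by linarith)
    have k3 := cA h hh t' (by linarith) (by linarith)
    set t'' := dist o (h • γ t') with ht''
    have e7 : dist (γ t) (γ t'') = t'' - t := by
      rw [hγ t ⟨by linarith, by linarith⟩ t'' ⟨by linarith, by linarith⟩, abs_sub_comm,
        abs_of_nonneg (by linarith)]
    have e8 : dist (γ t) (γ t') = t' - t := by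
      rw [hγ t ⟨by linarith, by linarith⟩ t' ⟨by linarith, by linarith⟩, abs_sub_comm,
        abs_of_nonneg (by linarith)]
    have e9 : dist (h • γ t') (h ^ 2 • γ t) ≤ 6 * δ := by
      rw [pow_two, mul_smul, hiso, dist_comm]
      exact k1
    have u1 := dist_triangle4 (γ t) (h ^ 2 • γ t) (h • γ t') (γ t'')
    rw [dist_comm (h ^ 2 • γ t)] at u1
    have u2 := dist_triangle (γ t) (γ t') (h • γ t)
    rw [dist_comm (γ t') (h • γ t)] at u2
    have := no_certificate hyp hiso o hNL h (γ t)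
    linarith
  -- claim D
  obtain ⟨e1, e2, b1, b2⟩ := basic h hh t (by linarith) (by linarith)
  have k1 := cA h hh t (by linarith) (by linarith)
  have kC := cC h hh t (by linarith) (by linarith)
  set t' := dist o (h • γ t) with ht'
  have hh' : dist o (h⁻¹ • o) ≤ L0 := by
    rw [← hiso h, smul_smul, mul_inv_cancel, one_smul, dist_comm]
    exact hh
  have kC' := cC h⁻¹ hh' t' (by linarith) (by linarith)
  have e10 : dist (γ t) (h⁻¹ • γ t') ≤ 6 * δ := by
    rw [← hiso h, smul_smul, mul_inv_cancel, one_smul]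
    exact k1
  have t1 := dist_triangle o (h⁻¹ • γ t') (γ t)
  rw [dx t (by linarith) (by linarith), dist_comm (h⁻¹ • γ t')] at t1
  have e8 : dist (γ t) (γ t') ≤ 28 * δ + 1 := by
    rw [hγ t ⟨by linarith, by linarith⟩ t' ⟨by linarith, by linarith⟩, abs_le]
    constructor <;> linarith
  have u2 := dist_triangle (γ t) (γ t') (h • γ t)
  rw [dist_comm (γ t') (h • γ t)] at u2
  linarith

/-- In an acylindrical action with unbounded orbits there is an element with a certificate. -/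
lemma exists_certificate {δ : ℝ} (hgeo : IsGeodesicSpace S) (hyp : Hyp4 S δ)
    (hiso : ∀ (g : G) (x y : S), dist (g • x) (g • y) = dist x y) (hac : Acylindrical G S)
    (o : S) (hunb : ∀ M : ℝ, ∃ g : G, M < dist o (g • o)) :
    ∃ g : G, dist o (g • o) + 2 * δ + 1 ≤ dist o (g ^ 2 • o) := by
  classical
  by_contra hcon
  push Not at hcon
  have hδ := hyp.nonneg o
  obtain ⟨R, hR, N, hN⟩ := hac (34 * δ + 1) (by linarith)
  have hinf : Infinite G := by
    by_contra hfin
    rw [not_infinite_iff_finite] at hfin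
    obtain ⟨M, hM⟩ := (Set.finite_range fun g : G => dist o (g • o)).bddAbove
    obtain ⟨g, hg⟩ := hunb M
    exact absurd (hM ⟨g, rfl⟩) (not_le.2 hg)
  obtain ⟨F, hF⟩ := Infinite.exists_subset_card_eq G (N + 1)
  set L0 := ∑ h ∈ F, dist o (h • o) with hL0
  have hL0' : ∀ h ∈ F, dist o (h • o) ≤ L0 := fun h hh =>
    Finset.single_le_sum (f := fun h : G => dist o (h • o)) (fun _ _ => dist_nonneg) hh
  have hL0p : 0 ≤ L0 := Finset.sum_nonneg fun _ _ => dist_nonneg
  set t0 := 2 * L0 + δ + 1 with ht0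
  obtain ⟨g, hg⟩ := hunb (2 * (t0 + R + 3 * L0) + L0 + 2 * δ + 1)
  obtain ⟨γ, h0, h1, hγ⟩ := hgeo o (g • o)
  have hd : ∀ h ∈ F, ∀ t, t0 ≤ t → t ≤ t0 + R → dist (γ t) (h • γ t) ≤ 34 * δ + 1 := by
    intro h hh t ht1 ht2
    exact displacement hyp hiso o hcon g rfl γ h0 h1 hγ h (hL0' h hh) t (by linarith)
      (by linarith)
  have hsub : (F : Set G) ⊆ {f : G | dist (γ t0) (f • γ t0) ≤ 34 * δ + 1 ∧
      dist (γ (t0 + R)) (f • γ (t0 + R)) ≤ 34 * δ + 1} := fun h hh =>
    ⟨hd h hh t0 le_rfl (by linarith), hd h hh (t0 + R) (by linarith) le_rfl⟩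
  have hle := (Set.encard_le_encard hsub).trans (hN (γ t0) (γ (t0 + R)) (by
    rw [hγ t0 ⟨by linarith, by linarith⟩ (t0 + R) ⟨by linarith, by linarith⟩, abs_sub_comm,
      abs_of_nonneg (by linarith)]
    linarith))
  rw [Set.encard_coe_eq_coe_finsetCard, Nat.cast_le, hF] at hle
  omega

/-- A certificate gives unbounded orbits. -/
lemma unbounded_of_certificate {δ : ℝ} (hyp : Hyp4 S δ)
    (hiso : ∀ (g : G) (x y : S), dist (g • x) (g • y) = dist x y)
    (o : S) (g : G) (hg : dist o (g • o) + 2 * δ + 1 ≤ dist o (g ^ 2 • o)) (M : ℝ) :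
    ∃ h : G, M < dist o (h • o) := by
  obtain ⟨k, hk⟩ := exists_nat_gt M
  refine ⟨g ^ (k + 1), ?_⟩
  have := local_global' hyp hiso g o one_pos hg k
  linarith

end Action

end Pool.Agent.Lib.MP_53fefd_al
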