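import Mathlib
import Pool.Agent.Lib.MP_53fefd_al.Geometry

open Set

universe u v

namespace Pool.Agent.Lib.MP_53fefd_al

/-- Formal points: translates of a base point and points on formal geodesic segments. -/
inductive Term (n : ℕ) : Type u
  | base : FreeGroup (Fin n) → Term n
  | seg : Term n → Term n → unitInterval → Term n

namespace Term

variable {n : ℕ}

/-- The action of the free group on formal points. -/
def act (w : FreeGroup (Fin n)) : Term.{u} n → Term.{u} n
  | base v => base (w * v)
  | seg a b q => seg (act w a) (act w b) q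

instance : SMul (FreeGroup (Fin n)) (Term.{u} n) := ⟨act⟩

lemma smul_base (w v : FreeGroup (Fin n)) : w • (base v : Term.{u} n) = base (w * v) := rfl

lemma smul_seg (w : FreeGroup (Fin n)) (a b : Term.{u} n) (q : unitInterval) :
    w • (seg a b q) = seg (w • a) (w • b) q := rfl

instance : MulAction (FreeGroup (Fin n)) (Term.{u} n) where
  one_smul a := by
    induction a with
    | base v => rw [smul_base, one_mul]
    | seg a b q ha hb => rw [smul_seg, ha, hb]
  mul_smul v w a := by
    induction a with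
    | base x => rw [smul_base, smul_base, smul_base, mul_assoc]
    | seg a b q ha hb => rw [smul_seg, smul_seg, smul_seg, ha, hb]

/-- The leftmost base point of a formal point. -/
def left : Term.{u} n → FreeGroup (Fin n)
  | base v => v
  | seg a _ _ => left a

lemma left_smul (w : FreeGroup (Fin n)) (a : Term.{u} n) : left (w • a) = w * left a := by
  induction a with
  | base v => rfl
  | seg a b q ha hb => exact ha

/-- A bound for the distance of a formal point from the base point. -/
def bd (K : ℕ) : Term.{u} n → ℝ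
  | base v => K * v.toWord.length
  | seg a b _ => 2 * bd K a + bd K b

lemma bd_nonneg (K : ℕ) (a : Term.{u} n) : 0 ≤ bd K a := by
  induction a with
  | base v => exact mul_nonneg (Nat.cast_nonneg _) (Nat.cast_nonneg _)
  | seg a b q ha hb =>
    show 0 ≤ 2 * bd K a + bd K b
    linarith

section Eval

variable {S : Type u} [PseudoMetricSpace S] [MulAction (FreeGroup (Fin n)) S] (o : S)
  (γ : S → S → ℝ → S)

/-- Evaluation of formal points. -/
noncomputable def eval : Term.{u} n → S
  | base v => v • o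
  | seg a b q => left a • γ ((left a)⁻¹ • eval a) ((left a)⁻¹ • eval b) (q * dist (eval a) (eval b))

variable (hiso : ∀ (g : FreeGroup (Fin n)) (x y : S), dist (g • x) (g • y) = dist x y)
  (hγ0 : ∀ x y, γ x y 0 = x) (hγ1 : ∀ x y, γ x y (dist x y) = y)
  (hγ : ∀ x y, ∀ s ∈ Icc 0 (dist x y), ∀ t ∈ Icc 0 (dist x y), dist (γ x y s) (γ x y t) = |s - t|)

include hiso

lemma eval_smul (w : FreeGroup (Fin n)) (a : Term.{u} n) :
    eval o γ (w • a) = w • eval o γ a := by
  induction a with
  | base v => exact mul_smul w v o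
  | seg a b q ha hb =>
    rw [smul_seg, eval, left_smul, ha, hb, eval, hiso]
    have h1 : ∀ x : S, (w * left a)⁻¹ • w • x = (left a)⁻¹ • x := by
      intro x
      rw [smul_smul, mul_inv_rev, mul_assoc, inv_mul_cancel, mul_one]
    rw [h1, h1, mul_smul]

omit hiso in
include hγ0 in
lemma eval_seg_zero (a b : Term.{u} n) : eval o γ (seg a b 0) = eval o γ a := by
  rw [eval]
  simp only [Set.Icc.coe_zero, zero_mul, hγ0, smul_inv_smul]

include hγ1 in
lemma eval_seg_one (a b : Term.{u} n) : eval o γ (seg a b 1) = eval o γ b := by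
  rw [eval]
  have h1 : dist ((left a)⁻¹ • eval o γ a) ((left a)⁻¹ • eval o γ b) =
      dist (eval o γ a) (eval o γ b) := hiso _ _ _
  have h2 := hγ1 ((left a)⁻¹ • eval o γ a) ((left a)⁻¹ • eval o γ b)
  rw [h1] at h2
  simp only [Set.Icc.coe_one, one_mul, h2, smul_inv_smul]

include hγ in
lemma dist_eval_seg (a b : Term.{u} n) (q q' : unitInterval) :
    dist (eval o γ (seg a b q)) (eval o γ (seg a b q')) =
      |(q : ℝ) - q'| * dist (eval o γ a) (eval o γ b) := by
  rw [eval, eval, hiso]
  have h1 : dist ((left a)⁻¹ • eval o γ a) ((left a)⁻¹ • eval o γ b) =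
      dist (eval o γ a) (eval o γ b) := hiso _ _ _
  have h2 : ∀ q : unitInterval, (q : ℝ) * dist (eval o γ a) (eval o γ b) ∈
      Icc 0 (dist ((left a)⁻¹ • eval o γ a) ((left a)⁻¹ • eval o γ b)) := by
    intro q
    rw [h1]
    exact ⟨mul_nonneg q.2.1 dist_nonneg, mul_le_of_le_one_left dist_nonneg q.2.2⟩
  rw [hγ _ _ _ (h2 q) _ (h2 q'), ← sub_mul, abs_mul, abs_of_nonneg (dist_nonneg)]

lemma dist_base_le (K : ℕ) (hK : ∀ i : Fin n, dist o (FreeGroup.of i • o) ≤ K)
    (v : FreeGroup (Fin n)) : dist o (v • o) ≤ K * v.toWord.length := by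
  have key : ∀ L : List (Fin n × Bool), dist o (FreeGroup.mk L • o) ≤ K * L.length := by
    intro L
    induction L with
    | nil =>
      have h1 : (FreeGroup.mk [] : FreeGroup (Fin n)) = 1 := rfl
      rw [h1, one_smul, dist_self]
      simp
    | cons x L ih =>
      have h1 : (FreeGroup.mk (x :: L) : FreeGroup (Fin n)) = FreeGroup.mk [x] * FreeGroup.mk L :=
        rfl
      have h2 : dist o (FreeGroup.mk [x] • o) ≤ K := by
        obtain ⟨i, b⟩ := x
        cases b with
        | true => exact hK i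
        | false =>
          have h3 : (FreeGroup.mk [(i, false)] : FreeGroup (Fin n)) = (FreeGroup.of i)⁻¹ := rfl
          rw [h3, ← hiso (FreeGroup.of i), smul_smul, mul_inv_cancel, one_smul, dist_comm]
          exact hK i
      have h3 := dist_triangle o (FreeGroup.mk [x] • o) (FreeGroup.mk (x :: L) • o)
      rw [h1, mul_smul, hiso] at h3
      rw [h1, mul_smul, List.length_cons]
      push_cast
      linarith
  have := key v.toWord
  rwa [FreeGroup.mk_toWord] at this

include hγ0 hγ in
lemma dist_eval_le (K : ℕ) (hK : ∀ i : Fin n, dist o (FreeGroup.of i • o) ≤ K)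
    (a : Term.{u} n) : dist o (eval o γ a) ≤ bd K a := by
  induction a with
  | base v => exact dist_base_le o hiso K hK v
  | seg a b q ha hb =>
    have h1 := dist_triangle o (eval o γ a) (eval o γ (seg a b q))
    have h2 := dist_eval_seg o γ hiso hγ a b 0 q
    rw [eval_seg_zero o γ hγ0] at h2
    have h3 := dist_triangle (eval o γ a) o (eval o γ b)
    rw [dist_comm (eval o γ a) o] at h3
    have h4 : |((0 : unitInterval) : ℝ) - q| * dist (eval o γ a) (eval o γ b) ≤
        dist (eval o γ a) (eval o γ b) := by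
      refine mul_le_of_le_one_left dist_nonneg ?_
      rw [Set.Icc.coe_zero, zero_sub, abs_neg, abs_of_nonneg q.2.1]
      exact q.2.2
    show _ ≤ 2 * bd K a + bd K b
    linarith

end Eval

end Term

/-- The closed conditions on a kernel `N` and a distance function on formal points. -/
structure Cond {n : ℕ} (δ R0 N0 : ℕ) (g : FreeGroup (Fin n)) (N : Marked n)
    (d : Term.{u} n → Term.{u} n → ℝ) : Prop where
  refl : ∀ a, d a a = 0
  symm : ∀ a b, d a b = d b a
  tri : ∀ a b c, d a c ≤ d a b + d b c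
  inv : ∀ (w : FreeGroup (Fin n)) (a b), d (w • a) (w • b) = d a b
  ker : ∀ w a, w ∈ N.1 → d a (w • a) = 0
  seg_zero : ∀ a b, d a (Term.seg a b 0) = 0
  seg_one : ∀ a b, d b (Term.seg a b 1) = 0
  seg : ∀ a b (q q' : unitInterval), d (Term.seg a b q) (Term.seg a b q') = |(q : ℝ) - q'| * d a b
  hyp : ∀ x y z w, d x y + d z w ≤ max (d x z + d y w) (d x w + d y z) + 2 * δ
  acyl : ∀ a b (f : Fin (N0 + 1) → FreeGroup (Fin n)), (R0 : ℝ) < d a b →
    (∀ p : Fin (N0 + 1) × Fin (N0 + 1), p.1 ≠ p.2 → (f p.1)⁻¹ * f p.2 ∉ N.1) →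
    ∃ i, 12 * (δ : ℝ) + 2 ≤ d a (f i • a) ∨ 12 * (δ : ℝ) + 2 ≤ d b (f i • b)
  cert : d (Term.base 1) (Term.base g) + 2 * δ + 1 ≤ d (Term.base 1) (Term.base (g ^ 2))

/-- The compact space of bounded distance functions on formal points. -/
abbrev Cfg (n K : ℕ) : Type u :=
  ∀ p : Term.{u} n × Term.{u} n, Icc (0 : ℝ) (Term.bd K p.1 + Term.bd K p.2)

lemma exists_cond {n : ℕ} (N : Marked n) (h : AcylHyp.{u} N.Grp) :
    ∃ (δ R0 N0 K : ℕ) (g : FreeGroup (Fin n)) (k : Cfg.{u} n K),
      Cond δ R0 N0 g N (fun a b => (k (a, b) : ℝ)) := by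
  classical
  obtain ⟨-, S, hm, hact, hisoG, hgeo, ⟨δ', hδ'⟩, hac, o, hunb⟩ := h
  obtain ⟨δ, hδ⟩ := exists_nat_ge δ'
  have hyp : Hyp4 S δ := fun x y z w => (hδ' x y z w).trans (by linarith)
  obtain ⟨g0, hg0⟩ := exists_certificate hgeo hyp hisoG hac o hunb
  obtain ⟨g, rfl⟩ := QuotientGroup.mk_surjective g0
  obtain ⟨R, hR, N0, hN0⟩ := hac (12 * δ + 2) (by positivity)
  obtain ⟨R0, hR0⟩ := exists_nat_ge R
  let _ : MulAction (FreeGroup (Fin n)) S := MulAction.compHom S (QuotientGroup.mk' N.1)
  have hsm : ∀ (w : FreeGroup (Fin n)) (x : S), w • x = (w : N.Grp) • x := fun _ _ => rfl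
  have hiso : ∀ (w : FreeGroup (Fin n)) (x y : S), dist (w • x) (w • y) = dist x y :=
    fun w x y => hisoG (w : N.Grp) x y
  choose γ hγ0 hγ1 hγ using hgeo
  obtain ⟨K, hK⟩ : ∃ K : ℕ, ∀ i : Fin n, dist o ((FreeGroup.of i : FreeGroup (Fin n)) • o) ≤ K := by
    obtain ⟨K, hK⟩ := exists_nat_ge (∑ i : Fin n, dist o ((FreeGroup.of i : FreeGroup (Fin n)) • o))
    exact ⟨K, fun i => (Finset.single_le_sum
      (f := fun i : Fin n => dist o ((FreeGroup.of i : FreeGroup (Fin n)) • o))
      (fun _ _ => dist_nonneg) (Finset.mem_univ i)).trans hK⟩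
  have hbd : ∀ a : Term.{u} n, dist o (Term.eval o γ a) ≤ Term.bd K a :=
    Term.dist_eval_le o γ hiso hγ0 hγ K hK
  let ev : Term.{u} n → S := Term.eval o γ
  have hev : ∀ (w : FreeGroup (Fin n)) (a : Term.{u} n), ev (w • a) = w • ev a :=
    Term.eval_smul o γ hiso
  refine ⟨δ, R0, N0, K, g, fun p => ⟨dist (ev p.1) (ev p.2), dist_nonneg, ?_⟩, ?_⟩
  · have := dist_triangle (ev p.1) o (ev p.2)
    rw [dist_comm (ev p.1) o] at this
    exact this.trans (add_le_add (hbd _) (hbd _))
  · refine ⟨fun a => dist_self _, fun a b => dist_comm _ _, fun a b c => dist_triangle _ _ _,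
      ?_, ?_, ?_, ?_, ?_, fun x y z w => hyp _ _ _ _, ?_, ?_⟩
    · intro w a b
      show dist (ev (w • a)) (ev (w • b)) = dist (ev a) (ev b)
      rw [hev, hev, hiso]
    · intro w a hw
      show dist (ev a) (ev (w • a)) = 0
      have h1 : (w : N.Grp) = 1 := (QuotientGroup.eq_one_iff w).2 hw
      rw [hev, hsm, h1, one_smul, dist_self]
    · intro a b
      show dist (ev a) (ev (Term.seg a b 0)) = 0
      have : ev (Term.seg a b 0) = ev a := Term.eval_seg_zero o γ hγ0 a b
      rw [this, dist_self]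
    · intro a b
      show dist (ev b) (ev (Term.seg a b 1)) = 0
      have : ev (Term.seg a b 1) = ev b := Term.eval_seg_one o γ hiso hγ1 a b
      rw [this, dist_self]
    · intro a b q q'
      exact Term.dist_eval_seg o γ hiso hγ a b q q'
    · intro a b f hab hf
      by_contra hcon
      push Not at hcon
      have hinj : Function.Injective fun i => (f i : N.Grp) := by
        intro i j hij
        by_contra hne
        exact hf (i, j) hne (QuotientGroup.eq.1 hij)
      have hsub : ((Finset.univ.image fun i => (f i : N.Grp) : Finset N.Grp) : Set N.Grp) ⊆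
          {g : N.Grp | dist (ev a) (g • ev a) ≤ 12 * δ + 2 ∧
            dist (ev b) (g • ev b) ≤ 12 * δ + 2} := by
        intro x hx
        rw [Finset.mem_coe, Finset.mem_image] at hx
        obtain ⟨i, -, rfl⟩ := hx
        obtain ⟨h1, h2⟩ := hcon i
        have h1' : dist (ev a) (ev (f i • a)) < 12 * δ + 2 := h1
        have h2' : dist (ev b) (ev (f i • b)) < 12 * δ + 2 := h2
        rw [hev, hsm] at h1' h2'
        exact ⟨h1'.le, h2'.le⟩
      have hab' : (R0 : ℝ) < dist (ev a) (ev b) := hab
      have hle := (Set.encard_le_encard hsub).trans (hN0 (ev a) (ev b) (by linarith))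
      rw [Set.encard_coe_eq_coe_finsetCard, Finset.card_image_of_injective _ hinj,
        Finset.card_univ, Fintype.card_fin, Nat.cast_le] at hle
      omega
    · have e1 : ∀ w : FreeGroup (Fin n), ev (Term.base w) = (w : N.Grp) • o := fun _ => rfl
      show dist (ev (Term.base 1)) (ev (Term.base g)) + 2 * δ + 1 ≤
        dist (ev (Term.base 1)) (ev (Term.base (g ^ 2)))
      rw [e1, e1, e1, QuotientGroup.mk_one, one_smul, QuotientGroup.mk_pow]
      exact hg0

lemma acylHyp_of_cond {n : ℕ} (N : Marked n) (hN : ¬ VirtCyclic N.Grp) {δ R0 N0 : ℕ}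
    {g : FreeGroup (Fin n)} {d : Term.{u} n → Term.{u} n → ℝ} (h : Cond δ R0 N0 g N d) :
    AcylHyp.{u} N.Grp := by
  classical
  refine ⟨hN, ?_⟩
  let _ : PseudoMetricSpace (Term.{u} n) :=
    { dist := d
      dist_self := h.refl
      dist_comm := h.symm
      dist_triangle := h.tri }
  have hd : ∀ a b : Term.{u} n, dist a b = d a b := fun _ _ => rfl
  have : IsIsometricSMul (FreeGroup (Fin n)) (Term.{u} n) :=
    ⟨fun w => Isometry.of_dist_eq fun a b => h.inv w a b⟩
  let V := SeparationQuotient (Term.{u} n)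
  have hmk : ∀ a b : Term.{u} n, dist (SeparationQuotient.mk a) (SeparationQuotient.mk b) = d a b :=
    fun a b => SeparationQuotient.dist_mk a b
  let ρ : FreeGroup (Fin n) →* Equiv.Perm V := MulAction.toPermHom (FreeGroup (Fin n)) V
  have hρ : ∀ w ∈ N.1, ρ w = 1 := by
    intro w hw
    ext x
    obtain ⟨a, rfl⟩ := SeparationQuotient.surjective_mk x
    show w • SeparationQuotient.mk a = SeparationQuotient.mk a
    rw [← SeparationQuotient.mk_smul, ← dist_eq_zero, hmk, h.symm]
    exact h.ker w a hw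
  let φ : N.Grp →* Equiv.Perm V := QuotientGroup.lift N.1 ρ hρ
  let _ : MulAction N.Grp V := MulAction.compHom V φ
  have hsm : ∀ (w : FreeGroup (Fin n)) (a : Term.{u} n),
      (w : N.Grp) • (SeparationQuotient.mk a : V) = SeparationQuotient.mk (w • a) :=
    fun _ _ => rfl
  have hiso : ∀ (g : N.Grp) (x y : V), dist (g • x) (g • y) = dist x y := by
    intro g x y
    obtain ⟨w, rfl⟩ := QuotientGroup.mk_surjective g
    obtain ⟨a, rfl⟩ := SeparationQuotient.surjective_mk x
    obtain ⟨b, rfl⟩ := SeparationQuotient.surjective_mk y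
    rw [hsm, hsm, hmk, hmk, h.inv]
  have hgeo : IsGeodesicSpace V := by
    intro x y
    obtain ⟨a, rfl⟩ := SeparationQuotient.surjective_mk x
    obtain ⟨b, rfl⟩ := SeparationQuotient.surjective_mk y
    rw [hmk]
    have hD : 0 ≤ d a b := by
      rw [← hd]
      exact dist_nonneg
    have habs : ∀ r : ℝ, |r| * d a b = |r * d a b| := by
      intro r
      rw [abs_mul, abs_of_nonneg hD]
    let c : ℝ → unitInterval := fun t => Set.projIcc 0 1 zero_le_one (t / d a b)
    have hc : ∀ t ∈ Icc 0 (d a b), (c t : ℝ) * d a b = t := by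
      intro t ht
      rcases hD.eq_or_lt with h0 | hpos
      · rw [← h0] at ht ⊢
        rw [mul_zero]
        exact le_antisymm ht.1 ht.2
      · have h1 : t / d a b ∈ Icc (0 : ℝ) 1 :=
          ⟨div_nonneg ht.1 hD, (div_le_one hpos).2 ht.2⟩
        show (Set.projIcc 0 1 zero_le_one (t / d a b) : ℝ) * d a b = t
        rw [Set.projIcc_of_mem _ h1]
        exact div_mul_cancel₀ _ hpos.ne'
    refine ⟨fun t => SeparationQuotient.mk (Term.seg a b (c t)), ?_, ?_, ?_⟩
    · have h0 : c 0 = 0 := by
        show Set.projIcc 0 1 zero_le_one (0 / d a b) = 0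
        rw [zero_div]
        exact Set.projIcc_of_le_left _ le_rfl
      show SeparationQuotient.mk (Term.seg a b (c 0)) = SeparationQuotient.mk a
      rw [h0, ← dist_eq_zero, hmk, h.symm]
      exact h.seg_zero a b
    · show SeparationQuotient.mk (Term.seg a b (c (d a b))) = SeparationQuotient.mk b
      rw [← dist_eq_zero, hmk, h.symm]
      have h1 := h.seg a b (c (d a b)) 1
      have h2 := hc (d a b) ⟨hD, le_rfl⟩
      have h3 : |((c (d a b) : ℝ)) - ((1 : unitInterval) : ℝ)| * d a b = 0 := by
        rw [habs, sub_mul, Set.Icc.coe_one, one_mul, h2, sub_self, abs_zero]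
      rw [h3] at h1
      have h5 := h.tri b (Term.seg a b 1) (Term.seg a b (c (d a b)))
      rw [h.seg_one, h.symm (Term.seg a b 1), h1] at h5
      have h6 : 0 ≤ d b (Term.seg a b (c (d a b))) := by
        rw [← hd]
        exact dist_nonneg
      linarith
    · intro s hs t ht
      show dist (SeparationQuotient.mk (Term.seg a b (c s)))
        (SeparationQuotient.mk (Term.seg a b (c t))) = |s - t|
      rw [hmk, h.seg, habs, sub_mul, hc s hs, hc t ht]
  have hyp : Hyp4 V δ := by
    intro x y z w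
    obtain ⟨x, rfl⟩ := SeparationQuotient.surjective_mk x
    obtain ⟨y, rfl⟩ := SeparationQuotient.surjective_mk y
    obtain ⟨z, rfl⟩ := SeparationQuotient.surjective_mk z
    obtain ⟨w, rfl⟩ := SeparationQuotient.surjective_mk w
    simp only [hmk]
    exact h.hyp x y z w
  have hac : Acylindrical N.Grp V := by
    refine acylindrical_of_single hgeo hyp hiso (R0 := R0) (Nat.cast_nonneg _) (N0 := N0) ?_
    intro x y hxy
    obtain ⟨a, rfl⟩ := SeparationQuotient.surjective_mk x
    obtain ⟨b, rfl⟩ := SeparationQuotient.surjective_mk y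
    rw [hmk] at hxy
    by_contra hcon
    push Not at hcon
    obtain ⟨t, htsub, htcard⟩ := Set.exists_subset_encard_eq (Order.add_one_le_of_lt hcon)
    have htcard' : t.encard = ((N0 + 1 : ℕ) : ℕ∞) := by rw [htcard]; rfl
    have htfin : t.Finite := Set.finite_of_encard_eq_coe htcard'
    lift t to Finset N.Grp using htfin
    rw [Set.encard_coe_eq_coe_finsetCard, Nat.cast_inj] at htcard'
    let e : Fin (N0 + 1) ≃ t := (t.equivFinOfCardEq htcard').symm
    have hsurj : ∀ i, ∃ w : FreeGroup (Fin n), (w : N.Grp) = (e i : N.Grp) := fun i =>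
      QuotientGroup.mk_surjective _
    choose f hf using hsurj
    obtain ⟨i, hi⟩ := h.acyl a b f hxy (by
      intro p hp hmem
      apply hp
      have h1 : (f p.1 : N.Grp) = (f p.2 : N.Grp) := QuotientGroup.eq.2 hmem
      rw [hf, hf] at h1
      exact e.injective (Subtype.ext h1))
    have hmem : (e i : N.Grp) ∈ (t : Set N.Grp) := (e i).2
    obtain ⟨h1, h2⟩ := htsub hmem
    rw [← hf, hsm, hmk] at h1 h2
    rcases hi with hi | hi
    · linarith
    · linarith
  refine ⟨V, inferInstance, inferInstance, hiso, hgeo, ⟨δ, hyp⟩, hac,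
    SeparationQuotient.mk (Term.base 1), ?_⟩
  intro M
  refine unbounded_of_certificate hyp hiso (SeparationQuotient.mk (Term.base 1)) (g : N.Grp) ?_ M
  rw [← QuotientGroup.mk_pow, hsm, hsm, hmk, hmk, Term.smul_base, Term.smul_base, mul_one, mul_one]
  exact h.cert

end Pool.Agent.Lib.MP_53fefd_al
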