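import Mathlib
import Pool.Agent.Lib.MP_53fefd_al.Terms

open Set

universe u v

namespace Pool.Agent.Lib.MP_53fefd_al

variable {n : ℕ}

lemma continuous_ind : Continuous (Marked.ind (n := n)) := continuous_induced_dom

lemma isClopen_mem (w : FreeGroup (Fin n)) : IsClopen {N : Marked n | w ∈ N.1} := by
  have h : {N : Marked n | w ∈ N.1} = (fun N => Marked.ind N w) ⁻¹' {true} := by
    ext N
    simp [Marked.ind]
  rw [h]
  exact (isClopen_discrete _).preimage ((continuous_apply w).comp continuous_ind)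

section Closed

variable (K : ℕ)

lemma continuous_D (a b : Term.{u} n) :
    Continuous fun p : Marked n × Cfg.{u} n K => (p.2 (a, b) : ℝ) :=
  continuous_subtype_val.comp ((continuous_apply (a, b)).comp continuous_snd)

lemma isClopen_mem' (w : FreeGroup (Fin n)) :
    IsClopen {p : Marked n × Cfg.{u} n K | w ∈ p.1.1} :=
  (isClopen_mem w).preimage continuous_fst

lemma isClosed_cond (δ R0 N0 : ℕ) (g : FreeGroup (Fin n)) :
    IsClosed {p : Marked n × Cfg.{u} n K |
      Cond δ R0 N0 g p.1 (fun a b => (p.2 (a, b) : ℝ))} := by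
  have hD := fun a b => continuous_D (n := n) K a b
  have c1 : IsClosed {p : Marked n × Cfg.{u} n K | ∀ a, (p.2 (a, a) : ℝ) = 0} := by
    simp only [ofPred_forall]
    exact isClosed_iInter fun a => isClosed_eq (hD a a) continuous_const
  have c2 : IsClosed {p : Marked n × Cfg.{u} n K | ∀ a b, (p.2 (a, b) : ℝ) = p.2 (b, a)} := by
    simp only [ofPred_forall]
    exact isClosed_iInter fun a => isClosed_iInter fun b => isClosed_eq (hD a b) (hD b a)
  have c3 : IsClosed {p : Marked n × Cfg.{u} n K | ∀ a b c,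
      (p.2 (a, c) : ℝ) ≤ p.2 (a, b) + p.2 (b, c)} := by
    simp only [ofPred_forall]
    exact isClosed_iInter fun a => isClosed_iInter fun b => isClosed_iInter fun c =>
      isClosed_le (hD a c) ((hD a b).add (hD b c))
  have c4 : IsClosed {p : Marked n × Cfg.{u} n K | ∀ (w : FreeGroup (Fin n)) (a b),
      (p.2 (w • a, w • b) : ℝ) = p.2 (a, b)} := by
    simp only [ofPred_forall]
    exact isClosed_iInter fun w => isClosed_iInter fun a => isClosed_iInter fun b =>
      isClosed_eq (hD _ _) (hD _ _)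
  have c5 : IsClosed {p : Marked n × Cfg.{u} n K | ∀ w a, w ∈ p.1.1 →
      (p.2 (a, w • a) : ℝ) = 0} := by
    simp only [ofPred_forall]
    exact isClosed_iInter fun w => isClosed_iInter fun a =>
      isClosed_imp (isClopen_mem' K w).isOpen (isClosed_eq (hD _ _) continuous_const)
  have c6 : IsClosed {p : Marked n × Cfg.{u} n K | ∀ a b,
      (p.2 (a, Term.seg a b 0) : ℝ) = 0} := by
    simp only [ofPred_forall]
    exact isClosed_iInter fun a => isClosed_iInter fun b => isClosed_eq (hD _ _) continuous_const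
  have c7 : IsClosed {p : Marked n × Cfg.{u} n K | ∀ a b,
      (p.2 (b, Term.seg a b 1) : ℝ) = 0} := by
    simp only [ofPred_forall]
    exact isClosed_iInter fun a => isClosed_iInter fun b => isClosed_eq (hD _ _) continuous_const
  have c8 : IsClosed {p : Marked n × Cfg.{u} n K | ∀ a b (q q' : unitInterval),
      (p.2 (Term.seg a b q, Term.seg a b q') : ℝ) = |(q : ℝ) - q'| * p.2 (a, b)} := by
    simp only [ofPred_forall]
    exact isClosed_iInter fun a => isClosed_iInter fun b => isClosed_iInter fun q =>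
      isClosed_iInter fun q' => isClosed_eq (hD _ _) (continuous_const.mul (hD _ _))
  have c9 : IsClosed {p : Marked n × Cfg.{u} n K | ∀ x y z w : Term.{u} n,
      (p.2 (x, y) : ℝ) + p.2 (z, w) ≤
        max ((p.2 (x, z) : ℝ) + p.2 (y, w)) (p.2 (x, w) + p.2 (y, z)) + 2 * δ} := by
    simp only [ofPred_forall]
    exact isClosed_iInter fun x => isClosed_iInter fun y => isClosed_iInter fun z =>
      isClosed_iInter fun w => isClosed_le ((hD _ _).add (hD _ _))
        ((((hD _ _).add (hD _ _)).max ((hD _ _).add (hD _ _))).add continuous_const)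
  have c10 : IsClosed {p : Marked n × Cfg.{u} n K |
      ∀ (a b : Term.{u} n) (f : Fin (N0 + 1) → FreeGroup (Fin n)), (R0 : ℝ) < p.2 (a, b) →
        (∀ q : Fin (N0 + 1) × Fin (N0 + 1), q.1 ≠ q.2 → (f q.1)⁻¹ * f q.2 ∉ p.1.1) →
        ∃ i, 12 * (δ : ℝ) + 2 ≤ p.2 (a, f i • a) ∨ 12 * (δ : ℝ) + 2 ≤ p.2 (b, f i • b)} := by
    simp only [ofPred_forall]
    refine isClosed_iInter fun a => isClosed_iInter fun b => isClosed_iInter fun f => ?_
    refine isClosed_imp (isOpen_lt continuous_const (hD _ _)) (isClosed_imp ?_ ?_)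
    · simp only [ofPred_forall]
      refine isOpen_iInter_of_finite fun q => ?_
      by_cases hq : q.1 = q.2
      · simp [hq]
      · have : {p : Marked n × Cfg.{u} n K | q.1 ≠ q.2 → (f q.1)⁻¹ * f q.2 ∉ p.1.1} =
            {p : Marked n × Cfg.{u} n K | (f q.1)⁻¹ * f q.2 ∈ p.1.1}ᶜ := by
          ext p
          simp [hq]
        have h2 : IsOpen {p : Marked n × Cfg.{u} n K | (f q.1)⁻¹ * f q.2 ∈ p.1.1}ᶜ :=
          (isClopen_mem' K _).compl.isOpen
        rw [← this] at h2
        simpa only [ofPred_forall] using h2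
    · simp only [ofPred_exists, ofPred_or]
      exact isClosed_iUnion_of_finite fun i => (isClosed_le continuous_const (hD _ _)).union
        (isClosed_le continuous_const (hD _ _))
  have c11 : IsClosed {p : Marked n × Cfg.{u} n K |
      (p.2 (Term.base 1, Term.base g) : ℝ) + 2 * δ + 1 ≤ p.2 (Term.base 1, Term.base (g ^ 2))} :=
    isClosed_le (((hD _ _).add continuous_const).add continuous_const) (hD _ _)
  have key := c1.inter (c2.inter (c3.inter (c4.inter (c5.inter (c6.inter (c7.inter (c8.inter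
    (c9.inter (c10.inter c11)))))))))
  convert key using 1
  ext p
  constructor
  · intro h
    exact ⟨h.refl, h.symm, h.tri, h.inv, h.ker, h.seg_zero, h.seg_one, h.seg, h.hyp, h.acyl,
      h.cert⟩
  · rintro ⟨h1, h2, h3, h4, h5, h6, h7, h8, h9, h10, h11⟩
    exact ⟨h1, h2, h3, h4, h5, h6, h7, h8, h9, h10, h11⟩

end Closed

section Borel

/-- The Borel sigma algebra of the space of marked groups. -/
noncomputable local instance : MeasurableSpace (Marked n) := borel (Marked n)

local instance : BorelSpace (Marked n) := ⟨rfl⟩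

lemma measurableSet_mem (w : FreeGroup (Fin n)) : MeasurableSet {N : Marked n | w ∈ N.1} :=
  (isClopen_mem w).isOpen.measurableSet

lemma virtCyclic_iff {G : Type v} [Group G] : VirtCyclic G ↔
    ∃ (g : G) (F : Finset G), ∀ x : G, ∃ f ∈ F, ∃ m : ℤ, x = f * g ^ m := by
  classical
  constructor
  · rintro ⟨g, hg⟩
    have : Finite (G ⧸ Subgroup.zpowers g) := Subgroup.finite_quotient_of_finiteIndex
    have := Fintype.ofFinite (G ⧸ Subgroup.zpowers g)
    refine ⟨g, Finset.univ.image (Quotient.out : G ⧸ Subgroup.zpowers g → G), fun x => ?_⟩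
    refine ⟨Quotient.out (x : G ⧸ Subgroup.zpowers g),
      Finset.mem_image_of_mem _ (Finset.mem_univ _), ?_⟩
    have h1 : ((Quotient.out (x : G ⧸ Subgroup.zpowers g) : G) : G ⧸ Subgroup.zpowers g) = x :=
      Quotient.out_eq' _
    obtain ⟨m, hm⟩ := Subgroup.mem_zpowers_iff.1 (QuotientGroup.eq.1 h1)
    exact ⟨m, by rw [hm, mul_inv_cancel_left]⟩
  · rintro ⟨g, F, hF⟩
    refine ⟨g, ?_⟩
    rw [Subgroup.finiteIndex_iff_finite_quotient]
    have hsurj : Function.Surjective
        (fun f : F => ((f : G) : G ⧸ Subgroup.zpowers g)) := by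
      intro y
      obtain ⟨x, rfl⟩ := QuotientGroup.mk_surjective y
      obtain ⟨f, hf, m, rfl⟩ := hF x
      refine ⟨⟨f, hf⟩, ?_⟩
      rw [QuotientGroup.eq, inv_mul_cancel_left]
      exact Subgroup.zpow_mem_zpowers g m
    exact Finite.of_surjective _ hsurj

lemma measurableSet_virtCyclic : MeasurableSet {N : Marked n | VirtCyclic N.Grp} := by
  classical
  have h : {N : Marked n | VirtCyclic N.Grp} =
      ⋃ (g : FreeGroup (Fin n)) (F : Finset (FreeGroup (Fin n))),
        ⋂ x : FreeGroup (Fin n), ⋃ f ∈ F, ⋃ m : ℤ, {N : Marked n | x⁻¹ * (f * g ^ m) ∈ N.1} := by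
    ext N
    simp only [mem_ofPred_eq, mem_iUnion, mem_iInter]
    rw [virtCyclic_iff]
    constructor
    · rintro ⟨g, F, hF⟩
      obtain ⟨g, rfl⟩ := QuotientGroup.mk_surjective g
      refine ⟨g, F.image Quotient.out, fun x => ?_⟩
      obtain ⟨f, hf, m, hm⟩ := hF x
      refine ⟨Quotient.out f, Finset.mem_image_of_mem _ hf, m, ?_⟩
      rw [← QuotientGroup.eq, hm, QuotientGroup.mk_mul, QuotientGroup.mk_zpow]
      congr 1
      exact (Quotient.out_eq' f).symm
    · rintro ⟨g, F, hF⟩
      refine ⟨g, F.image (fun f : FreeGroup (Fin n) => (f : N.Grp)), fun x => ?_⟩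
      obtain ⟨x, rfl⟩ := QuotientGroup.mk_surjective x
      obtain ⟨f, hf, m, hm⟩ := hF x
      refine ⟨f, Finset.mem_image_of_mem _ hf, m, ?_⟩
      rw [← QuotientGroup.mk_zpow, ← QuotientGroup.mk_mul]
      exact QuotientGroup.eq.2 hm
  rw [h]
  refine MeasurableSet.iUnion fun g => MeasurableSet.iUnion fun F => MeasurableSet.iInter fun x =>
    Finset.measurableSet_biUnion _ fun f _ => MeasurableSet.iUnion fun m => measurableSet_mem _

/-- The set of acylindrically hyperbolic marked groups is Borel. -/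
lemma measurableSet_acylHyp : MeasurableSet {N : Marked n | AcylHyp.{u} N.Grp} := by
  have h : {N : Marked n | AcylHyp.{u} N.Grp} = {N : Marked n | VirtCyclic N.Grp}ᶜ ∩
      ⋃ (δ : ℕ) (R0 : ℕ) (N0 : ℕ) (K : ℕ) (g : FreeGroup (Fin n)),
        Prod.fst '' {p : Marked n × Cfg.{u} n K |
          Cond δ R0 N0 g p.1 (fun a b => (p.2 (a, b) : ℝ))} := by
    ext N
    simp only [mem_inter_iff, mem_iUnion, mem_image, mem_ofPred_eq, mem_compl_iff]
    constructor
    · intro hN
      obtain ⟨δ, R0, N0, K, g, k, hk⟩ := exists_cond N hN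
      exact ⟨hN.1, δ, R0, N0, K, g, (N, k), hk, rfl⟩
    · rintro ⟨hN, δ, R0, N0, K, g, ⟨N', k⟩, hk, rfl⟩
      exact acylHyp_of_cond _ hN hk
  rw [h]
  refine measurableSet_virtCyclic.compl.inter ?_
  refine MeasurableSet.iUnion fun δ => MeasurableSet.iUnion fun R0 => MeasurableSet.iUnion fun N0 =>
    MeasurableSet.iUnion fun K => MeasurableSet.iUnion fun g => ?_
  exact (isClosedMap_fst_of_compactSpace _ (isClosed_cond K δ R0 N0 g)).measurableSet

end Borel

end Pool.Agent.Lib.MP_53fefd_al
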