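import Mathlib
import Pool.Agent.Lib.MP_53fefd_al.Defs

open Set

universe u v

namespace Pool.Agent.Lib.MP_53fefd_al

/-- The coned-off Cayley graph of the group `G` with respect to a set `X ⊆ G` and subgroups
`H 0, …, H (k - 1)`. Its vertices are the elements of `G` (the vertices `Sum.inl g`) and the left
cosets `g H i` (the vertices `Sum.inr ⟨i, g H i⟩`). Two elements `g ≠ g'` are joined by an edge when
`g' = g x` or `g = g' x` for some `x ∈ X`, and every `g` is joined by an edge to each of the cosets
`g H i`. There are no other edges. -/
def coneGraph {G : Type v} [Group G] {k : ℕ} (X : Set G) (H : Fin k → Subgroup G) :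
    SimpleGraph (G ⊕ (Σ i : Fin k, G ⧸ H i)) where
  Adj
    | .inl g, .inl g' => g ≠ g' ∧ (g⁻¹ * g' ∈ X ∨ g'⁻¹ * g ∈ X)
    | .inl g, .inr c => (g : G ⧸ H c.1) = c.2
    | .inr c, .inl g => (g : G ⧸ H c.1) = c.2
    | .inr _, .inr _ => False
  symm := by
    refine ⟨fun a b h => ?_⟩
    cases a <;> cases b <;> simp_all [or_comm, eq_comm]
  loopless := by
    refine ⟨fun a h => ?_⟩
    cases a <;> simp_all

/-- A (connected) graph is hyperbolic if its vertex set with the graph metric satisfies Gromov's
four point condition for some constant. -/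
def HypGraph {V : Type u} (Γ : SimpleGraph V) : Prop :=
  ∃ δ : ℕ, ∀ x y z w : V,
    Γ.dist x y + Γ.dist z w ≤ max (Γ.dist x z + Γ.dist y w) (Γ.dist x w + Γ.dist y z) + δ

/-- A graph is fine if for every edge `{x, y}` and every `m`, there are only finitely many circuits
of length `m` containing this edge. A circuit containing the edge `{x, y}` is recorded by the closed
walk which starts at `x`, goes to `y` first and runs once through the circuit. -/
def FineGraph {V : Type u} (Γ : SimpleGraph V) : Prop :=
  ∀ (x y : V) (m : ℕ), {c : Γ.Walk x x | c.IsCycle ∧ c.snd = y ∧ c.length = m}.Finite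

/-- `G` is hyperbolic relative to the subgroups `H 0, …, H (k - 1)`: for some finite set `X ⊆ G`,
the coned-off Cayley graph with respect to `X` and the `H i` is connected (that is, `X` and the `H i`
together generate `G`), hyperbolic and fine. -/
def HypRel (G : Type v) [Group G] {k : ℕ} (H : Fin k → Subgroup G) : Prop :=
  ∃ X : Finset G, (coneGraph (X : Set G) H).Connected ∧
    HypGraph (coneGraph (X : Set G) H) ∧ FineGraph (coneGraph (X : Set G) H)

/-- `G` is non-elementary relatively hyperbolic: it is not virtually cyclic, and it is hyperbolic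
relative to some finite collection of subgroups none of which is equal to `G`. -/
def NonElemRelHyp (G : Type v) [Group G] : Prop :=
  ¬ VirtCyclic G ∧ ∃ (k : ℕ) (H : Fin k → Subgroup G), (∀ i, H i ≠ ⊤) ∧ HypRel G H

end Pool.Agent.Lib.MP_53fefd_al
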