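import Mathlib
import Pool.Agent.Lib.MP_53fefd_al.DefsRH

open Set

universe u v

namespace Pool.Agent.Lib.MP_53fefd_al

section Graph

variable {V : Type u} {Γ : SimpleGraph V}

/-- There is a walk of length at most `L` from `x` to `y` avoiding `v`. -/
def Avoid (Γ : SimpleGraph V) (v : V) (L : ℕ) (x y : V) : Prop :=
  ∃ p : Γ.Walk x y, v ∉ p.support ∧ p.length ≤ L

lemma Avoid.trans {v x y z : V} {L L' : ℕ} (h : Avoid Γ v L x y) (h' : Avoid Γ v L' y z) :
    Avoid Γ v (L + L') x z := by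
  obtain ⟨p, hp, hpl⟩ := h
  obtain ⟨q, hq, hql⟩ := h'
  refine ⟨p.append q, ?_, ?_⟩
  · rw [SimpleGraph.Walk.mem_support_append_iff]
    tauto
  · rw [SimpleGraph.Walk.length_append]
    omega

lemma Avoid.symm {v x y : V} {L : ℕ} (h : Avoid Γ v L x y) : Avoid Γ v L y x := by
  obtain ⟨p, hp, hpl⟩ := h
  exact ⟨p.reverse, by simpa using hp, by simpa using hpl⟩

lemma Avoid.mono {v x y : V} {L L' : ℕ} (h : Avoid Γ v L x y) (hL : L ≤ L') :
    Avoid Γ v L' x y := by
  obtain ⟨p, hp, hpl⟩ := h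
  exact ⟨p, hp, hpl.trans hL⟩

lemma avoid_of_dist_lt (hc : Γ.Connected) {v x y : V} (h : Γ.dist x y < Γ.dist x v) :
    Avoid Γ v (Γ.dist x y) x y := by
  classical
  obtain ⟨p, hp⟩ := hc.exists_walk_length_eq_dist x y
  refine ⟨p, fun hv => ?_, hp.le⟩
  have h1 := SimpleGraph.dist_le (p.takeUntil v hv)
  have h2 := p.length_takeUntil_le_length hv
  omega

lemma exists_between (hc : Γ.Connected) {x y : V} {a b : ℕ} (h : Γ.dist x y = a + b) :
    ∃ z, Γ.dist x z = a ∧ Γ.dist z y = b := by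
  obtain ⟨p, hp⟩ := hc.exists_walk_length_eq_dist x y
  refine ⟨p.getVert a, ?_⟩
  have h1 := SimpleGraph.dist_le (p.take a)
  have h2 := SimpleGraph.dist_le (p.drop a)
  have h3 := hc.dist_triangle (u := x) (v := p.getVert a) (w := y)
  rw [SimpleGraph.Walk.take_length] at h1
  rw [SimpleGraph.Walk.drop_length] at h2
  omega

lemma avoid_step (hc : Γ.Connected) {δ : ℕ} (hδ : ∀ x y z w : V,
      Γ.dist x y + Γ.dist z w ≤ max (Γ.dist x z + Γ.dist y w) (Γ.dist x w + Γ.dist y z) + δ)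
    {v y y' u u' : V} (hy : y ≠ v) (hy' : y' ≠ v) (hyy : Γ.Adj y y')
    (hu : Γ.dist u v = 1) (hu' : Γ.dist u' v = 1)
    (h : Γ.dist y u + 1 = Γ.dist y v) (h' : Γ.dist y' u' + 1 = Γ.dist y' v) :
    Avoid Γ v (3 * δ + 6) u u' := by
  have hyy1 : Γ.dist y y' = 1 := SimpleGraph.dist_eq_one_iff_adj.2 hyy
  have t1 := hc.dist_triangle (u := y) (v := y') (w := v)
  have t2 := hc.dist_triangle (u := y') (v := y) (w := v)
  rw [SimpleGraph.dist_comm (u := y') (v := y)] at t2
  by_cases hnear : Γ.dist y v ≤ δ + 3 ∨ Γ.dist y' v ≤ δ + 3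
  · have a1 : Avoid Γ v (Γ.dist y u) y u := avoid_of_dist_lt hc (by omega)
    have a2 : Avoid Γ v (Γ.dist y' u') y' u' := avoid_of_dist_lt hc (by omega)
    have a3 : Avoid Γ v 1 y y' := ⟨hyy.toWalk, by simp [hy.symm, hy'.symm], by simp⟩
    exact ((a1.symm.trans a3).trans a2).mono (by omega)
  · push Not at hnear
    obtain ⟨x, hx1, hx2⟩ := exists_between hc (x := y) (y := u)
      (a := Γ.dist y v - (δ + 3)) (b := δ + 2) (by omega)
    obtain ⟨x', hx1', hx2'⟩ := exists_between hc (x := y') (y := u')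
      (a := Γ.dist y' v - (δ + 3)) (b := δ + 2) (by omega)
    have e1 := hc.dist_triangle (u := y) (v := x) (w := v)
    have e2 := hc.dist_triangle (u := x) (v := u) (w := v)
    have e1' := hc.dist_triangle (u := y') (v := x') (w := v)
    have e2' := hc.dist_triangle (u := x') (v := u') (w := v)
    have hxv : Γ.dist x v = δ + 3 := by omega
    have hxv' : Γ.dist x' v = δ + 3 := by omega
    have f := hδ x x' v y'
    have e3 := hc.dist_triangle (u := x) (v := y) (w := y')
    rw [SimpleGraph.dist_comm (u := v) (v := y'), SimpleGraph.dist_comm (u := x') (v := y'),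
      hxv, hx1', hxv'] at f
    rw [SimpleGraph.dist_comm (u := x) (v := y), hx1] at e3
    have hxx : Γ.dist x x' ≤ δ + 2 := by omega
    have a1 : Avoid Γ v (Γ.dist x u) x u := avoid_of_dist_lt hc (by omega)
    have a2 : Avoid Γ v (Γ.dist x' u') x' u' := avoid_of_dist_lt hc (by omega)
    have a3 : Avoid Γ v (Γ.dist x x') x x' := avoid_of_dist_lt hc (by omega)
    exact ((a1.symm.trans a3).trans a2).mono (by omega)

end Graph

section Cone

variable {G : Type v} [Group G] {k : ℕ} {X : Set G} {H : Fin k → Subgroup G}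

/-- The vertex of the coset `H i`. -/
def cv (H : Fin k → Subgroup G) (i : Fin k) : G ⊕ (Σ i : Fin k, G ⧸ H i) :=
  Sum.inr ⟨i, ((1 : G) : G ⧸ H i)⟩

lemma adj_cv {i : Fin k} {g : G} : (coneGraph X H).Adj (Sum.inl g) (cv H i) ↔ g ∈ H i := by
  change ((g : G ⧸ H i) = ((1 : G) : G ⧸ H i)) ↔ _
  rw [eq_comm, QuotientGroup.eq]
  simp

lemma adj_cv_iff {i : Fin k} {z : G ⊕ (Σ i : Fin k, G ⧸ H i)} :
    (coneGraph X H).Adj z (cv H i) ↔ ∃ g ∈ H i, z = Sum.inl g := by
  constructor
  · intro h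
    cases z with
    | inl g => exact ⟨g, adj_cv.1 h, rfl⟩
    | inr c => exact absurd h (by simp [coneGraph, cv])
  · rintro ⟨g, hg, rfl⟩
    exact adj_cv.2 hg

/-- Left multiplication as a homomorphism of the coned-off Cayley graph. -/
def lmul (X : Set G) (H : Fin k → Subgroup G) (g : G) : coneGraph X H →g coneGraph X H where
  toFun
    | .inl a => .inl (g * a)
    | .inr ⟨i, q⟩ => .inr ⟨i, g • q⟩
  map_rel' := by
    intro a b h
    cases a with
    | inl a =>
      cases b with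
      | inl b =>
        simp only [coneGraph] at h ⊢
        refine ⟨fun hab => h.1 (mul_left_cancel hab), ?_⟩
        simpa [mul_assoc] using h.2
      | inr c =>
        obtain ⟨i, q⟩ := c
        simp only [coneGraph] at h ⊢
        rw [← h]
        rfl
    | inr c =>
      cases b with
      | inl b =>
        obtain ⟨i, q⟩ := c
        simp only [coneGraph] at h ⊢
        rw [← h]
        rfl
      | inr c' => exact absurd h (by simp [coneGraph])

@[simp] lemma lmul_inl (g a : G) : lmul X H g (Sum.inl a) = Sum.inl (g * a) := rfl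

lemma lmul_cv {i : Fin k} {g : G} (hg : g ∈ H i) : lmul X H g (cv H i) = cv H i := by
  change Sum.inr (⟨i, (g • ((1 : G) : G ⧸ H i))⟩ : Σ i : Fin k, G ⧸ H i) = _
  have : g • ((1 : G) : G ⧸ H i) = ((1 : G) : G ⧸ H i) := by
    change ((g * 1 : G) : G ⧸ H i) = _
    rw [eq_comm, QuotientGroup.eq]
    simpa using hg
  rw [this]
  rfl

lemma lmul_lmul (g g' : G) (x : G ⊕ (Σ i : Fin k, G ⧸ H i)) :
    lmul X H g (lmul X H g' x) = lmul X H (g * g') x := by
  cases x with
  | inl a => simp [mul_assoc]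
  | inr c =>
    obtain ⟨i, q⟩ := c
    change Sum.inr (⟨i, g • (g' • q)⟩ : Σ i : Fin k, G ⧸ H i) = Sum.inr ⟨i, (g * g') • q⟩
    rw [smul_smul]

lemma lmul_injective (g : G) : Function.Injective (lmul X H g) := by
  intro x y h
  have := congrArg (lmul X H g⁻¹) h
  rw [lmul_lmul, lmul_lmul, inv_mul_cancel] at this
  have h1 : ∀ z : G ⊕ (Σ i : Fin k, G ⧸ H i), lmul X H 1 z = z := by
    intro z
    cases z with
    | inl a => simp
    | inr c =>
      obtain ⟨i, q⟩ := c
      change Sum.inr (⟨i, (1 : G) • q⟩ : Σ i : Fin k, G ⧸ H i) = _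
      rw [one_smul]
  rwa [h1, h1] at this

lemma avoid_lmul {i : Fin k} {g : G} (hg : g ∈ H i) {L : ℕ}
    {x y : G ⊕ (Σ i : Fin k, G ⧸ H i)} (h : Avoid (coneGraph X H) (cv H i) L x y) :
    Avoid (coneGraph X H) (cv H i) L (lmul X H g x) (lmul X H g y) := by
  obtain ⟨p, hp, hpl⟩ := h
  refine ⟨p.map (lmul X H g), ?_, by simpa using hpl⟩
  rw [SimpleGraph.Walk.support_map, List.mem_map]
  rintro ⟨z, hz, hz'⟩
  rw [← lmul_cv (X := X) hg] at hz'
  rw [lmul_injective g hz'] at hz
  exact hp hz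

/-- By fineness, only finitely many elements of `H i` can be reached from `1` by a short walk
avoiding the vertex of the coset `H i`. -/
lemma finite_avoid (hf : FineGraph (coneGraph X H)) (i : Fin k) (L : ℕ) :
    {h : G | h ∈ H i ∧ Avoid (coneGraph X H) (cv H i) L (Sum.inl 1) (Sum.inl h)}.Finite := by
  classical
  have hfin : (⋃ m ∈ Finset.range (L + 3), (fun c : (coneGraph X H).Walk (cv H i) (cv H i) =>
      c.penultimate) '' {c : (coneGraph X H).Walk (cv H i) (cv H i) |
        c.IsCycle ∧ c.snd = Sum.inl 1 ∧ c.length = m}).Finite := by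
    refine Set.Finite.biUnion (Finset.finite_toSet _) fun m _ => ?_
    exact (hf (cv H i) (Sum.inl 1) m).image _
  have hfin2 := (hfin.preimage (f := (Sum.inl : G → G ⊕ (Σ i : Fin k, G ⧸ H i)))
    Sum.inl_injective.injOn).union (Set.finite_singleton (1 : G))
  refine hfin2.subset ?_
  rintro h ⟨hh, p, hp, hpl⟩
  by_cases h1 : h = 1
  · right
    exact h1
  left
  rw [Set.mem_preimage, Set.mem_iUnion₂]
  have hadj : (coneGraph X H).Adj (cv H i) (Sum.inl 1) := (adj_cv.2 (one_mem _)).symm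
  have hadj' : (coneGraph X H).Adj (Sum.inl h) (cv H i) := adj_cv.2 hh
  have hq : cv H i ∉ p.bypass.support := fun hq => hp (p.support_bypass_subset_support hq)
  have hql := p.length_bypass_le_length
  set q := p.bypass with hqdef
  have hcyc : (SimpleGraph.Walk.cons hadj (q.concat hadj')).IsCycle := by
    rw [SimpleGraph.Walk.cons_isCycle_iff]
    refine ⟨SimpleGraph.Walk.IsPath.concat p.bypass_isPath hq _, ?_⟩
    rw [SimpleGraph.Walk.edges_concat]
    simp only [List.concat_eq_append, List.mem_append, List.mem_singleton, not_or]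
    refine ⟨fun he => hq (SimpleGraph.Walk.fst_mem_support_of_mem_edges _ he), ?_⟩
    intro he
    rw [Sym2.eq_swap, Sym2.congr_left] at he
    exact h1 (Sum.inl_injective he).symm
  refine ⟨q.length + 2, by simp; omega, _, ⟨hcyc, by simp, by simp⟩, ?_⟩
  change SimpleGraph.Walk.penultimate (SimpleGraph.Walk.cons hadj (q.concat hadj')) = _
  rw [SimpleGraph.Walk.penultimate_cons_of_not_nil _ _ (by simp [SimpleGraph.Walk.concat])]
  simp

end Cone

section FG

variable {G : Type v} [Group G] {k : ℕ} {X : Set G} {H : Fin k → Subgroup G} {i : Fin k}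

/-- The invariant used to show that the peripheral subgroups are finitely generated. -/
def Inv (X : Set G) (H : Fin k → Subgroup G) (i : Fin k) (K : Subgroup G)
    (Sup : Set (G ⊕ (Σ i : Fin k, G ⧸ H i))) (z : G ⊕ (Σ i : Fin k, G ⧸ H i)) : Prop :=
  (z ≠ cv H i ∧ ∀ h ∈ H i, (coneGraph X H).dist z (Sum.inl h) + 1 =
    (coneGraph X H).dist z (cv H i) → h ∈ K) ∨ (z = cv H i ∧ ∃ a ∈ K, Sum.inl a ∈ Sup)

lemma exists_proj (hc : (coneGraph X H).Connected) {z : G ⊕ (Σ i : Fin k, G ⧸ H i)}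
    (hz : z ≠ cv H i) : ∃ h ∈ H i, (coneGraph X H).dist z (Sum.inl h) + 1 =
      (coneGraph X H).dist z (cv H i) := by
  have hpos := hc.pos_dist_of_ne hz
  obtain ⟨w, hw1, hw2⟩ := exists_between hc (x := z) (y := cv H i)
    (a := (coneGraph X H).dist z (cv H i) - 1) (b := 1) (by omega)
  obtain ⟨h, hh, rfl⟩ := adj_cv_iff.1 (SimpleGraph.dist_eq_one_iff_adj.1 hw2)
  exact ⟨h, hh, by omega⟩

lemma dist_inl_cv {h : G} (hh : h ∈ H i) :
    (coneGraph X H).dist (Sum.inl h) (cv H i) = 1 :=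
  SimpleGraph.dist_eq_one_iff_adj.2 (adj_cv.2 hh)

lemma eq_of_proj_inl (hc : (coneGraph X H).Connected) {a h : G} (ha : a ∈ H i)
    (hh : (coneGraph X H).dist (Sum.inl a) (Sum.inl h) + 1 =
      (coneGraph X H).dist (Sum.inl a) (cv H i)) : h = a := by
  rw [dist_inl_cv ha] at hh
  have : (coneGraph X H).dist (Sum.inl a) (Sum.inl h) = 0 := by omega
  exact (Sum.inl_injective ((hc.dist_eq_zero_iff).1 this)).symm

variable {K : Subgroup G} {δ : ℕ}

lemma inv_step (hc : (coneGraph X H).Connected)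
    (hδ : ∀ x y z w, (coneGraph X H).dist x y + (coneGraph X H).dist z w ≤
      max ((coneGraph X H).dist x z + (coneGraph X H).dist y w)
        ((coneGraph X H).dist x w + (coneGraph X H).dist y z) + δ)
    (hKH : K ≤ H i)
    (hK : ∀ h ∈ H i, Avoid (coneGraph X H) (cv H i) (3 * δ + 6) (Sum.inl 1) (Sum.inl h) → h ∈ K)
    {Sup : Set (G ⊕ (Σ i : Fin k, G ⧸ H i))}
    (hSup : ∀ a b, Sum.inl a ∈ Sup → Sum.inl b ∈ Sup → a ∈ H i → b ∈ H i → a⁻¹ * b ∈ K)
    {x y : G ⊕ (Σ i : Fin k, G ⧸ H i)} (hx : x ∈ Sup) (hy : y ∈ Sup)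
    (hxy : (coneGraph X H).Adj x y) (h : Inv X H i K Sup x) : Inv X H i K Sup y := by
  rcases h with ⟨hxv, h⟩ | ⟨rfl, a, haK, ha⟩
  · by_cases hyv : y = cv H i
    · right
      subst hyv
      obtain ⟨a, ha, rfl⟩ := adj_cv_iff.1 hxy
      refine ⟨rfl, a, h a ha ?_, hx⟩
      rw [SimpleGraph.dist_self, dist_inl_cv ha]
    · left
      refine ⟨hyv, fun b hb hb' => ?_⟩
      obtain ⟨a, ha, ha'⟩ := exists_proj hc hxv
      have haK := h a ha ha'
      have hav := avoid_step hc hδ hxv hyv hxy (dist_inl_cv (X := X) ha) (dist_inl_cv (X := X) hb)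
        ha' hb'
      have := avoid_lmul (inv_mem ha) hav
      rw [lmul_inl, lmul_inl, inv_mul_cancel] at this
      have h2 := hK _ (mul_mem (inv_mem ha) hb) this
      have := mul_mem haK h2
      rwa [mul_inv_cancel_left] at this
  · obtain ⟨b, hb, rfl⟩ := adj_cv_iff.1 hxy.symm
    left
    refine ⟨by simp [cv], fun c _ hc' => ?_⟩
    rw [eq_of_proj_inl hc hb hc']
    have := mul_mem haK (hSup a b ha hy (hKH haK) hb)
    rwa [mul_inv_cancel_left] at this

lemma inv_walk (hc : (coneGraph X H).Connected)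
    (hδ : ∀ x y z w, (coneGraph X H).dist x y + (coneGraph X H).dist z w ≤
      max ((coneGraph X H).dist x z + (coneGraph X H).dist y w)
        ((coneGraph X H).dist x w + (coneGraph X H).dist y z) + δ)
    (hKH : K ≤ H i)
    (hK : ∀ h ∈ H i, Avoid (coneGraph X H) (cv H i) (3 * δ + 6) (Sum.inl 1) (Sum.inl h) → h ∈ K)
    {Sup : Set (G ⊕ (Σ i : Fin k, G ⧸ H i))}
    (hSup : ∀ a b, Sum.inl a ∈ Sup → Sum.inl b ∈ Sup → a ∈ H i → b ∈ H i → a⁻¹ * b ∈ K)
    {x y : G ⊕ (Σ i : Fin k, G ⧸ H i)} (p : (coneGraph X H).Walk x y)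
    (hp : ∀ z ∈ p.support, z ∈ Sup) (h : Inv X H i K Sup x) : Inv X H i K Sup y := by
  induction p with
  | nil => exact h
  | cons hadj q ih =>
    refine ih (fun z hz => hp z ?_) (inv_step hc hδ hKH hK hSup (hp _ ?_) (hp _ ?_) hadj h)
    · rw [SimpleGraph.Walk.support_cons]
      exact List.mem_cons_of_mem _ hz
    · simp
    · simp

/-- If `G` is finitely generated, and the coned-off Cayley graph is connected, hyperbolic and fine,
then the peripheral subgroups are finitely generated. -/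
lemma peripheral_fg (hG : Group.FG G) (hc : (coneGraph X H).Connected)
    (hh : HypGraph (coneGraph X H)) (hf : FineGraph (coneGraph X H)) (i : Fin k) : (H i).FG := by
  classical
  obtain ⟨δ, hδ⟩ := hh
  obtain ⟨A, hA, hAfin⟩ := Group.fg_iff.1 hG
  have w : ∀ s : G, (coneGraph X H).Walk (Sum.inl 1) (Sum.inl s) := fun s =>
    (hc.preconnected _ _).some
  have hSfin := finite_avoid hf i (3 * δ + 6)
  set S := {h : G | h ∈ H i ∧
    Avoid (coneGraph X H) (cv H i) (3 * δ + 6) (Sum.inl 1) (Sum.inl h)} with hS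
  have hTfin : (⋃ s ∈ A, (fun ab : G × G => ab.1⁻¹ * ab.2) ''
      {ab : G × G | Sum.inl ab.1 ∈ (w s).support ∧ Sum.inl ab.2 ∈ (w s).support}).Finite := by
    refine hAfin.biUnion fun s _ => Set.Finite.image _ ?_
    have h1 : {a : G | Sum.inl a ∈ (w s).support}.Finite :=
      ((w s).support.finite_toSet).preimage
        (f := (Sum.inl : G → G ⊕ (Σ i : Fin k, G ⧸ H i))) Sum.inl_injective.injOn
    exact h1.prod h1
  set T := ⋃ s ∈ A, (fun ab : G × G => ab.1⁻¹ * ab.2) ''
      {ab : G × G | Sum.inl ab.1 ∈ (w s).support ∧ Sum.inl ab.2 ∈ (w s).support} with hT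
  set K := Subgroup.closure (S ∪ (T ∩ H i)) with hKdef
  have hKH : K ≤ H i := by
    rw [hKdef, Subgroup.closure_le]
    rintro x (hx | hx)
    · exact hx.1
    · exact hx.2
  have hKS : ∀ h ∈ H i, Avoid (coneGraph X H) (cv H i) (3 * δ + 6) (Sum.inl 1) (Sum.inl h) →
      h ∈ K := fun h h1 h2 => Subgroup.subset_closure (Or.inl ⟨h1, h2⟩)
  have hKT : ∀ s ∈ A, ∀ g : G, ∀ a b, Sum.inl a ∈ ((w s).map (lmul X H g)).support →
      Sum.inl b ∈ ((w s).map (lmul X H g)).support → a ∈ H i → b ∈ H i → a⁻¹ * b ∈ K := by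
    intro s hs g a b ha hb haH hbH
    have key : ∀ c : G, Sum.inl c ∈ ((w s).map (lmul X H g)).support →
        Sum.inl (g⁻¹ * c) ∈ (w s).support := by
      intro c hc'
      rw [SimpleGraph.Walk.support_map, List.mem_map] at hc'
      obtain ⟨z, hz, hz'⟩ := hc'
      have : z = Sum.inl (g⁻¹ * c) := by
        apply lmul_injective (X := X) g
        rw [hz', lmul_inl, mul_inv_cancel_left]
      rwa [this] at hz
    refine Subgroup.subset_closure (Or.inr ⟨?_, mul_mem (inv_mem haH) hbH⟩)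
    rw [hT]
    refine Set.mem_biUnion hs ⟨(g⁻¹ * a, g⁻¹ * b), ⟨key a ha, key b hb⟩, ?_⟩
    simp [mul_assoc]
  have h4 : ∀ (y : G) (Sup), Inv X H i K Sup (Sum.inl y) ↔ Inv X H i K Set.univ (Sum.inl y) := by
    intro y Sup
    simp [Inv, cv]
  have hP : ∀ g : G, Inv X H i K Set.univ (Sum.inl g) := by
    intro g
    have hg : g ∈ Subgroup.closure A := by rw [hA]; trivial
    induction hg using Subgroup.closure_induction_right with
    | one =>
      left
      refine ⟨by simp [cv], fun h hh hh' => ?_⟩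
      rw [eq_of_proj_inl hc (one_mem _) hh']
      exact one_mem _
    | mul_right x hx s hs ih =>
      have h3 := inv_walk hc hδ hKH hKS (Sup := {z | z ∈ ((w s).map (lmul X H x)).support})
        (fun a b ha hb => hKT s hs x a b ha hb) ((w s).map (lmul X H x)) (fun z hz => hz)
      have h5 : Inv X H i K Set.univ (Sum.inl (x * 1)) := by rwa [mul_one]
      exact (h4 (x * s) _).1 (h3 ((h4 (x * 1) _).2 h5))
    | mul_inv_cancel x hx s hs ih =>
      have h3 := inv_walk hc hδ hKH hKS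
        (Sup := {z | z ∈ ((w s).map (lmul X H (x * s⁻¹))).support})
        (fun a b ha hb => hKT s hs (x * s⁻¹) a b ha hb) ((w s).map (lmul X H (x * s⁻¹))).reverse
        (fun z hz => by simpa using hz)
      have h5 : Inv X H i K Set.univ (Sum.inl (x * s⁻¹ * s)) := by rwa [inv_mul_cancel_right]
      have h6 := (h4 (x * s⁻¹ * 1) _).1 (h3 ((h4 (x * s⁻¹ * s) _).2 h5))
      rwa [mul_one] at h6
  have hHK : H i = K := by
    refine le_antisymm (fun h hh => ?_) hKH
    rcases hP h with ⟨_, h1⟩ | ⟨h1, _⟩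
    · refine h1 h hh ?_
      rw [SimpleGraph.dist_self, dist_inl_cv hh]
    · exact absurd h1 (by simp [cv])
  rw [hHK, Subgroup.fg_iff]
  exact ⟨_, rfl, hSfin.union (hTfin.inter_of_left _)⟩

end FG

end Pool.Agent.Lib.MP_53fefd_al
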