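import Mathlib
import Pool.Agent.Lib.MP_53fefd_al.BorelAH
import Pool.Agent.Lib.MP_53fefd_al.GeometryRH

open Set

universe u v

namespace Pool.Agent.Lib.MP_53fefd_al

section Lists

variable {V : Type u} {Γ : SimpleGraph V}

/-- The predicate that the closed walk with vertices `x, y, t` is a circuit of length `m`. -/
def Circ (Γ : SimpleGraph V) (x y : V) (m : ℕ) (t : List V) : Prop :=
  3 ≤ m ∧ t.length + 1 = m ∧ (x :: y :: t).IsChain Γ.Adj ∧ (y :: t).Nodup ∧
    (y :: t).getLast (List.cons_ne_nil _ _) = x

lemma exists_walk_of_isChain : ∀ (l : List V) (x : V), (x :: l).IsChain Γ.Adj →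
    ∃ p : Γ.Walk x ((x :: l).getLast (List.cons_ne_nil _ _)), p.support = x :: l
  | [], x, _ => ⟨.nil, rfl⟩
  | y :: l, x, h => by
    rw [List.isChain_cons_cons] at h
    obtain ⟨p, hp⟩ := exists_walk_of_isChain l y h.2
    refine ⟨(SimpleGraph.Walk.cons h.1 p).copy rfl ?_, ?_⟩
    · rw [List.getLast_cons (List.cons_ne_nil _ _)]
    · simp [hp]

lemma circ_of_isCycle {x y : V} {m : ℕ} {c : Γ.Walk x x} (hc : c.IsCycle) (hy : c.snd = y)
    (hm : c.length = m) : c.support = x :: y :: c.support.drop 2 ∧
      Circ Γ x y m (c.support.drop 2) := by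
  have h3 := hc.isCircuit.three_le_length
  cases c with
  | nil => simp at h3
  | cons h p =>
    rename_i z
    rw [SimpleGraph.Walk.snd_cons] at hy
    subst hy
    have hsup : (SimpleGraph.Walk.cons h p).support = x :: z :: p.support.tail := by
      rw [SimpleGraph.Walk.support_cons, SimpleGraph.Walk.cons_tail_support]
    have hdrop : (SimpleGraph.Walk.cons h p).support.drop 2 = p.support.tail := by
      rw [hsup]
      rfl
    rw [hdrop]
    refine ⟨hsup, by omega, ?_, ?_, ?_, ?_⟩
    · have := p.length_support
      rw [SimpleGraph.Walk.length_cons] at hm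
      rw [List.length_tail]
      omega
    · rw [← hsup]
      exact SimpleGraph.Walk.isChain_adj_support _
    · rw [SimpleGraph.Walk.cons_tail_support]
      exact ((SimpleGraph.Walk.cons_isCycle_iff p h).1 hc).1.support_nodup
    · have : ∀ (l : List V) (hl : l ≠ []), l = p.support → l.getLast hl = x := by
        rintro l hl rfl
        exact p.getLast_support
      exact this _ _ p.cons_tail_support

lemma exists_cycle_of_circ {x y : V} {m : ℕ} {t : List V} (h : Circ Γ x y m t) :
    ∃ c : Γ.Walk x x, c.IsCycle ∧ c.snd = y ∧ c.length = m ∧ c.support = x :: y :: t := by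
  obtain ⟨h3, hl, hch, hnd, hlast⟩ := h
  rw [List.isChain_cons_cons] at hch
  obtain ⟨p, hp⟩ := exists_walk_of_isChain t y hch.2
  have hp' : ∃ p : Γ.Walk y x, p.support = y :: t := ⟨p.copy rfl hlast, by simp [hp]⟩
  obtain ⟨q, hq⟩ := hp'
  have hql : q.length + 1 = m := by
    have := q.length_support
    rw [hq, List.length_cons] at this
    omega
  refine ⟨SimpleGraph.Walk.cons hch.1 q, ?_, by simp, by simpa using hql, by simp [hq]⟩
  rw [SimpleGraph.Walk.cons_isCycle_iff]
  have hqp : q.IsPath := by
    rw [SimpleGraph.Walk.isPath_def, hq]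
    exact hnd
  refine ⟨hqp, fun he => ?_⟩
  rw [Sym2.eq_swap] at he
  have := hqp.length_eq_one_of_mem_edges he
  omega

lemma fineGraph_iff : FineGraph Γ ↔ ∀ (x y : V) (m : ℕ), {t : List V | Circ Γ x y m t}.Finite := by
  constructor
  · intro h x y m
    refine ((h x y m).image (fun c : Γ.Walk x x => c.support.drop 2)).subset ?_
    intro t ht
    obtain ⟨c, h1, h2, h3, h4⟩ := exists_cycle_of_circ ht
    refine ⟨c, ⟨h1, h2, h3⟩, ?_⟩
    simp [h4]
  · intro h x y m
    refine Set.Finite.of_finite_image (f := fun c : Γ.Walk x x => c.support.drop 2)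
      ((h x y m).subset ?_) ?_
    · rintro _ ⟨c, ⟨h1, h2, h3⟩, rfl⟩
      exact (circ_of_isCycle h1 h2 h3).2
    · rintro c ⟨h1, h2, h3⟩ c' ⟨h1', h2', h3'⟩ hcc
      apply SimpleGraph.Walk.ext_support
      rw [(circ_of_isCycle h1 h2 h3).1, (circ_of_isCycle h1' h2' h3').1]
      simp only at hcc
      rw [hcc]

end Lists

section Lift

variable {n k : ℕ}

/-- The vertices of the coned-off Cayley graphs of all quotients of `F_n`, before identification. -/
abbrev V0 (n k : ℕ) : Type := FreeGroup (Fin n) ⊕ (Fin k × FreeGroup (Fin n))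

/-- The subgroup of `F_n / N` generated by the image of `W i`. -/
def Hsub (W : Fin k → Finset (FreeGroup (Fin n))) (N : Marked n) (i : Fin k) :
    Subgroup N.Grp :=
  (Subgroup.closure (W i : Set (FreeGroup (Fin n)))).map (QuotientGroup.mk' N.1)

/-- The image of `Y` in `F_n / N`. -/
def Xset (Y : Finset (FreeGroup (Fin n))) (N : Marked n) : Set N.Grp :=
  (fun w : FreeGroup (Fin n) => (w : N.Grp)) '' Y

/-- The coned-off Cayley graph of `F_n / N` with respect to the images of `Y` and `W`. -/
abbrev gph (W : Fin k → Finset (FreeGroup (Fin n))) (Y : Finset (FreeGroup (Fin n)))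
    (N : Marked n) : SimpleGraph (N.Grp ⊕ (Σ i : Fin k, N.Grp ⧸ Hsub W N i)) :=
  coneGraph (Xset Y N) (Hsub W N)

/-- The projection to the vertices of the coned-off Cayley graph of `F_n / N`. -/
def prj (W : Fin k → Finset (FreeGroup (Fin n))) (N : Marked n) :
    V0 n k → N.Grp ⊕ (Σ i : Fin k, N.Grp ⧸ Hsub W N i)
  | .inl g => .inl (g : N.Grp)
  | .inr (i, g) => .inr ⟨i, ((g : N.Grp) : N.Grp ⧸ Hsub W N i)⟩

lemma prj_surjective (W : Fin k → Finset (FreeGroup (Fin n))) (N : Marked n) :
    Function.Surjective (prj W N) := by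
  rintro (g | ⟨i, q⟩)
  · obtain ⟨g, rfl⟩ := QuotientGroup.mk_surjective g
    exact ⟨.inl g, rfl⟩
  · obtain ⟨g, rfl⟩ := QuotientGroup.mk_surjective q
    obtain ⟨g, rfl⟩ := QuotientGroup.mk_surjective g
    exact ⟨.inr (i, g), rfl⟩

/-- The Borel sigma algebra of the space of marked groups. -/
noncomputable local instance : MeasurableSpace (Marked n) := borel (Marked n)

local instance : BorelSpace (Marked n) := ⟨rfl⟩

lemma meas_mem (w : FreeGroup (Fin n)) : Measurable fun N : Marked n => w ∈ N.1 :=
  measurableSet_setOfPred.1 (measurableSet_mem w)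

variable (W : Fin k → Finset (FreeGroup (Fin n))) (Y : Finset (FreeGroup (Fin n)))

lemma mem_Hsub {N : Marked n} {i : Fin k} {g : FreeGroup (Fin n)} :
    (g : N.Grp) ∈ Hsub W N i ↔
      ∃ w : FreeGroup (Fin n), w ∈ Subgroup.closure (W i : Set (FreeGroup (Fin n))) ∧
        w⁻¹ * g ∈ N.1 := by
  rw [Hsub, Subgroup.mem_map]
  refine exists_congr fun w => and_congr_right fun _ => ?_
  rw [QuotientGroup.mk'_apply, QuotientGroup.eq]

lemma meas_mem_Hsub (i : Fin k) (g : FreeGroup (Fin n)) :
    Measurable fun N : Marked n => (g : N.Grp) ∈ Hsub W N i := by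
  simp_rw [mem_Hsub]
  exact Measurable.exists fun w => measurable_const.and (meas_mem _)

lemma meas_eq (a b : V0 n k) : Measurable fun N : Marked n => prj W N a = prj W N b := by
  rcases a with g | ⟨i, g⟩ <;> rcases b with g' | ⟨j, g'⟩
  · simp only [prj, Sum.inl.injEq]
    simp_rw [QuotientGroup.eq]
    exact meas_mem _
  · simp only [prj, reduceCtorEq]
    exact measurable_const
  · simp only [prj, reduceCtorEq]
    exact measurable_const
  · by_cases hij : i = j
    · subst hij
      have : (fun N : Marked n => prj W N (Sum.inr (i, g)) = prj W N (Sum.inr (i, g'))) =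
          fun N : Marked n => ((g⁻¹ * g' : FreeGroup (Fin n)) : N.Grp) ∈ Hsub W N i := by
        funext N
        simp only [prj, Sum.inr.injEq, Sigma.mk.injEq, heq_eq_eq, true_and]
        rw [QuotientGroup.eq]
        rfl
      rw [this]
      exact meas_mem_Hsub W _ _
    · have : (fun N : Marked n => prj W N (Sum.inr (i, g)) = prj W N (Sum.inr (j, g'))) =
          fun N : Marked n => False := by
        funext N
        simp [prj, hij]
      rw [this]
      exact measurable_const

lemma meas_adj (a b : V0 n k) :
    Measurable fun N : Marked n => (gph W Y N).Adj (prj W N a) (prj W N b) := by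
  rcases a with g | ⟨i, g⟩ <;> rcases b with g' | ⟨j, g'⟩
  · have : (fun N : Marked n => (gph W Y N).Adj (prj W N (Sum.inl g)) (prj W N (Sum.inl g'))) =
        fun N : Marked n => (¬ g⁻¹ * g' ∈ N.1) ∧ ((∃ w, w ∈ Y ∧ w⁻¹ * (g⁻¹ * g') ∈ N.1) ∨
          (∃ w, w ∈ Y ∧ w⁻¹ * (g'⁻¹ * g) ∈ N.1)) := by
      funext N
      simp only [prj, gph, coneGraph, Xset]
      rw [ne_eq, QuotientGroup.eq]
      simp only [mem_image, Finset.mem_coe]
      refine propext (and_congr_right fun _ => or_congr ?_ ?_)
      · refine exists_congr fun w => and_congr_right fun _ => ?_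
        rw [← QuotientGroup.eq]
        rfl
      · refine exists_congr fun w => and_congr_right fun _ => ?_
        rw [← QuotientGroup.eq]
        rfl
    rw [this]
    exact (meas_mem _).not.and
      ((Measurable.exists fun w => measurable_const.and (meas_mem _)).or
        (Measurable.exists fun w => measurable_const.and (meas_mem _)))
  · have : (fun N : Marked n => (gph W Y N).Adj (prj W N (Sum.inl g))
        (prj W N (Sum.inr (j, g')))) =
        fun N : Marked n => ((g⁻¹ * g' : FreeGroup (Fin n)) : N.Grp) ∈ Hsub W N j := by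
      funext N
      simp only [prj, gph, coneGraph]
      rw [QuotientGroup.eq]
      rfl
    rw [this]
    exact meas_mem_Hsub W _ _
  · have : (fun N : Marked n => (gph W Y N).Adj (prj W N (Sum.inr (i, g)))
        (prj W N (Sum.inl g'))) =
        fun N : Marked n => ((g'⁻¹ * g : FreeGroup (Fin n)) : N.Grp) ∈ Hsub W N i := by
      funext N
      simp only [prj, gph, coneGraph]
      rw [QuotientGroup.eq]
      rfl
    rw [this]
    exact meas_mem_Hsub W _ _
  · simp only [prj, gph, coneGraph]
    exact measurable_const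

lemma exists_walk_succ {V : Type u} {Γ : SimpleGraph V} {x y : V} {m : ℕ} :
    (∃ p : Γ.Walk x y, p.length = m + 1) ↔
      ∃ z, Γ.Adj x z ∧ ∃ p : Γ.Walk z y, p.length = m := by
  constructor
  · rintro ⟨p, hp⟩
    cases p with
    | nil => simp at hp
    | cons h q => exact ⟨_, h, q, by simpa using hp⟩
  · rintro ⟨z, h, p, hp⟩
    exact ⟨SimpleGraph.Walk.cons h p, by simp [hp]⟩

lemma meas_walk (m : ℕ) : ∀ (a b : V0 n k),
    Measurable fun N : Marked n =>
      ∃ p : (gph W Y N).Walk (prj W N a) (prj W N b), p.length = m := by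
  induction m with
  | zero =>
    intro a b
    simp_rw [SimpleGraph.Walk.exists_length_eq_zero_iff]
    exact meas_eq W a b
  | succ m ih =>
    intro a b
    simp_rw [exists_walk_succ]
    have : (fun N : Marked n => ∃ z, (gph W Y N).Adj (prj W N a) z ∧
        ∃ p : (gph W Y N).Walk z (prj W N b), p.length = m) =
        fun N : Marked n => ∃ c : V0 n k, (gph W Y N).Adj (prj W N a) (prj W N c) ∧
        ∃ p : (gph W Y N).Walk (prj W N c) (prj W N b), p.length = m := by
      funext N
      exact propext (prj_surjective W N).exists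
    rw [this]
    exact Measurable.exists fun c => (meas_adj W Y a c).and (ih c b)

lemma dist_eq_iff {V : Type u} {Γ : SimpleGraph V} {x y : V} {j : ℕ} :
    Γ.dist x y = j ↔ ((∃ p : Γ.Walk x y, p.length = j) ∧
      ∀ j' : ℕ, j' < j → ¬ ∃ p : Γ.Walk x y, p.length = j') ∨
      (j = 0 ∧ ∀ m : ℕ, ¬ ∃ p : Γ.Walk x y, p.length = m) := by
  by_cases h : Γ.Reachable x y
  · obtain ⟨p, hp⟩ := h.exists_walk_length_eq_dist
    constructor
    · rintro rfl
      left
      refine ⟨⟨p, hp⟩, ?_⟩
      rintro j' hj' ⟨q, rfl⟩
      exact absurd (SimpleGraph.dist_le q) (by omega)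
    · rintro (⟨⟨q, rfl⟩, h2⟩ | ⟨_, h2⟩)
      · refine le_antisymm (SimpleGraph.dist_le q) ?_
        by_contra hlt
        exact h2 _ (by omega) ⟨p, hp⟩
      · exact absurd ⟨p, rfl⟩ (h2 _)
  · rw [SimpleGraph.dist_eq_zero_of_not_reachable h]
    constructor
    · rintro rfl
      right
      exact ⟨rfl, fun m ⟨p, _⟩ => h ⟨p⟩⟩
    · rintro (⟨⟨p, _⟩, _⟩ | ⟨rfl, _⟩)
      · exact absurd ⟨p⟩ h
      · rfl

lemma meas_dist (a b : V0 n k) :
    Measurable fun N : Marked n => (gph W Y N).dist (prj W N a) (prj W N b) := by
  refine measurable_to_countable' fun j => ?_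
  have : (fun N : Marked n => (gph W Y N).dist (prj W N a) (prj W N b)) ⁻¹' {j} =
      {N : Marked n | (gph W Y N).dist (prj W N a) (prj W N b) = j} := rfl
  rw [this, measurableSet_setOfPred]
  simp_rw [dist_eq_iff]
  exact ((meas_walk W Y j a b).and (Measurable.forall fun j' =>
    measurable_const.imp (meas_walk W Y j' a b).not)).or
      (measurable_const.and (Measurable.forall fun m => (meas_walk W Y m a b).not))

lemma meas_hyp : Measurable fun N : Marked n => HypGraph (gph W Y N) := by
  have : (fun N : Marked n => HypGraph (gph W Y N)) = fun N : Marked n =>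
      ∃ δ : ℕ, ∀ x y z w : V0 n k,
        (gph W Y N).dist (prj W N x) (prj W N y) + (gph W Y N).dist (prj W N z) (prj W N w) ≤
          max ((gph W Y N).dist (prj W N x) (prj W N z) + (gph W Y N).dist (prj W N y) (prj W N w))
            ((gph W Y N).dist (prj W N x) (prj W N w) +
              (gph W Y N).dist (prj W N y) (prj W N z)) + δ := by
    funext N
    refine propext (exists_congr fun δ => ?_)
    rw [(prj_surjective W N).forall]
    refine forall_congr' fun x => ?_
    rw [(prj_surjective W N).forall]
    refine forall_congr' fun y => ?_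
    rw [(prj_surjective W N).forall]
    refine forall_congr' fun z => ?_
    rw [(prj_surjective W N).forall]
  rw [this]
  refine Measurable.exists fun δ => Measurable.forall fun x => Measurable.forall fun y =>
    Measurable.forall fun z => Measurable.forall fun w => ?_
  have h1 := meas_dist W Y
  exact measurableSet_setOfPred.1 (measurableSet_le ((h1 x y).add (h1 z w))
    ((((h1 x z).add (h1 y w)).max ((h1 x w).add (h1 y z))).add measurable_const))

lemma meas_conn : Measurable fun N : Marked n => (gph W Y N).Connected := by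
  have : (fun N : Marked n => (gph W Y N).Connected) = fun N : Marked n =>
      ∀ x y : V0 n k, ∃ m : ℕ, ∃ p : (gph W Y N).Walk (prj W N x) (prj W N y), p.length = m := by
    funext N
    refine propext ⟨fun h x y => ?_, fun h => ?_⟩
    · obtain ⟨p⟩ := h.preconnected (prj W N x) (prj W N y)
      exact ⟨_, p, rfl⟩
    · have : Nonempty (N.Grp ⊕ (Σ i : Fin k, N.Grp ⧸ Hsub W N i)) := ⟨Sum.inl 1⟩
      refine ⟨fun x y => ?_⟩
      obtain ⟨x, rfl⟩ := prj_surjective W N x
      obtain ⟨y, rfl⟩ := prj_surjective W N y
      obtain ⟨_, p, _⟩ := h x y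
      exact ⟨p⟩
  rw [this]
  exact Measurable.forall fun x => Measurable.forall fun y => Measurable.exists fun m =>
    meas_walk W Y m x y

lemma meas_chain : ∀ (l : List (V0 n k)),
    Measurable fun N : Marked n => (l.map (prj W N)).IsChain (gph W Y N).Adj
  | [] => by simp
  | [a] => by simp
  | a :: b :: l => by
    simp_rw [List.map_cons, List.isChain_cons_cons]
    exact (meas_adj W Y a b).and (meas_chain (b :: l))

lemma meas_memList (a : V0 n k) : ∀ (l : List (V0 n k)),
    Measurable fun N : Marked n => prj W N a ∈ l.map (prj W N)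
  | [] => by simp
  | b :: l => by
    simp_rw [List.map_cons, List.mem_cons]
    exact (meas_eq W a b).or (meas_memList a l)

lemma meas_nodup : ∀ (l : List (V0 n k)),
    Measurable fun N : Marked n => (l.map (prj W N)).Nodup
  | [] => by simp
  | a :: l => by
    simp_rw [List.map_cons, List.nodup_cons]
    exact (meas_memList W a l).not.and (meas_nodup l)

lemma meas_listEq : ∀ (l l' : List (V0 n k)),
    Measurable fun N : Marked n => l.map (prj W N) = l'.map (prj W N)
  | [], [] => by simp
  | [], b :: l' => by simp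
  | a :: l, [] => by simp
  | a :: l, b :: l' => by
    simp_rw [List.map_cons, List.cons.injEq]
    exact (meas_eq W a b).and (meas_listEq l l')

lemma meas_circ (a b : V0 n k) (m : ℕ) (t : List (V0 n k)) :
    Measurable fun N : Marked n =>
      Circ (gph W Y N) (prj W N a) (prj W N b) m (t.map (prj W N)) := by
  have : (fun N : Marked n => Circ (gph W Y N) (prj W N a) (prj W N b) m (t.map (prj W N))) =
      fun N : Marked n => 3 ≤ m ∧ t.length + 1 = m ∧
        ((a :: b :: t).map (prj W N)).IsChain (gph W Y N).Adj ∧
        ((b :: t).map (prj W N)).Nodup ∧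
        prj W N ((b :: t).getLast (List.cons_ne_nil _ _)) = prj W N a := by
    funext N
    simp only [Circ, List.length_map, ← List.map_cons, List.getLast_map]
  rw [this]
  exact measurable_const.and (measurable_const.and ((meas_chain W Y _).and
    ((meas_nodup W _).and (meas_eq W _ _))))

lemma meas_fine : Measurable fun N : Marked n => FineGraph (gph W Y N) := by
  classical
  have : (fun N : Marked n => FineGraph (gph W Y N)) = fun N : Marked n =>
      ∀ (x y : V0 n k) (m : ℕ), ∃ F : Finset (List (V0 n k)), ∀ t : List (V0 n k),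
        Circ (gph W Y N) (prj W N x) (prj W N y) m (t.map (prj W N)) →
          ∃ t', t' ∈ F ∧ t.map (prj W N) = t'.map (prj W N) := by
    funext N
    rw [fineGraph_iff]
    have hsurj : Function.Surjective (List.map (prj W N)) :=
      List.map_surjective_iff.2 (prj_surjective W N)
    refine propext ?_
    rw [(prj_surjective W N).forall]
    refine forall_congr' fun x => ?_
    rw [(prj_surjective W N).forall]
    refine forall_congr' fun y => forall_congr' fun m => ?_
    constructor
    · intro h
      refine ⟨h.toFinset.image (Function.surjInv hsurj), fun t ht => ?_⟩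
      refine ⟨Function.surjInv hsurj (t.map (prj W N)),
        Finset.mem_image_of_mem _ (h.mem_toFinset.2 ht), ?_⟩
      exact (Function.surjInv_eq hsurj _).symm
    · rintro ⟨F, hF⟩
      refine ((F.finite_toSet).image (List.map (prj W N))).subset ?_
      intro t ht
      obtain ⟨t, rfl⟩ := hsurj t
      obtain ⟨t', ht', h2⟩ := hF t ht
      exact ⟨t', ht', h2.symm⟩
  rw [this]
  exact Measurable.forall fun x => Measurable.forall fun y => Measurable.forall fun m =>
    Measurable.exists fun F => Measurable.forall fun t => (meas_circ W Y x y m t).imp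
      (Measurable.exists fun t' => measurable_const.and (meas_listEq W t t'))

lemma meas_ne_top (i : Fin k) : Measurable fun N : Marked n => Hsub W N i ≠ ⊤ := by
  have : (fun N : Marked n => Hsub W N i ≠ ⊤) = fun N : Marked n =>
      ¬ ∀ g : FreeGroup (Fin n), (g : N.Grp) ∈ Hsub W N i := by
    funext N
    refine propext (not_congr ?_)
    rw [Subgroup.eq_top_iff', QuotientGroup.mk_surjective.forall]
  rw [this]
  exact (Measurable.forall fun g => meas_mem_Hsub W i g).not

lemma image_out {N : Marked n} (S : Set N.Grp) :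
    (fun x : N.Grp => ((Quotient.out x : FreeGroup (Fin n)) : N.Grp)) '' S = S := by
  have h1 : ∀ x : N.Grp, ((Quotient.out x : FreeGroup (Fin n)) : N.Grp) = x :=
    fun x => Quotient.out_eq' x
  ext x
  constructor
  · rintro ⟨y, hy, hyx⟩
    have h2 : y = x := (h1 y).symm.trans hyx
    exact h2 ▸ hy
  · intro hx
    exact ⟨x, hx, h1 x⟩

lemma exists_W {N : Marked n} {H : Subgroup N.Grp} (hH : H.FG) :
    ∃ W : Finset (FreeGroup (Fin n)),
      (Subgroup.closure (W : Set (FreeGroup (Fin n)))).map (QuotientGroup.mk' N.1) = H := by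
  classical
  obtain ⟨S, hS⟩ := hH
  refine ⟨S.image Quotient.out, ?_⟩
  rw [MonoidHom.map_closure, ← hS]
  congr 1
  rw [Finset.coe_image, Set.image_image]
  exact image_out (S : Set N.Grp)

lemma measurableSet_relHyp : MeasurableSet {N : Marked n | NonElemRelHyp N.Grp} := by
  classical
  rw [measurableSet_setOfPred]
  have : (fun N : Marked n => NonElemRelHyp N.Grp) = fun N : Marked n =>
      (¬ VirtCyclic N.Grp) ∧ ∃ (k : ℕ) (W : Fin k → Finset (FreeGroup (Fin n)))
        (Y : Finset (FreeGroup (Fin n))), (∀ i, Hsub W N i ≠ ⊤) ∧ (gph W Y N).Connected ∧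
          HypGraph (gph W Y N) ∧ FineGraph (gph W Y N) := by
    funext N
    refine propext (and_congr_right fun _ => exists_congr fun k => ?_)
    constructor
    · rintro ⟨H, htop, X, hc, hh, hf⟩
      have hfg : Group.FG N.Grp := inferInstance
      have := fun i => peripheral_fg hfg hc hh hf i
      choose W hW using fun i => exists_W (this i)
      have hH : H = Hsub W N := by
        funext i
        exact (hW i).symm
      have hX : (X : Set N.Grp) = Xset (X.image Quotient.out) N := by
        rw [Xset, Finset.coe_image, Set.image_image]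
        exact (image_out (X : Set N.Grp)).symm
      subst hH
      rw [hX] at hc hh hf
      exact ⟨W, X.image Quotient.out, htop, hc, hh, hf⟩
    · rintro ⟨W, Y, htop, hc, hh, hf⟩
      refine ⟨Hsub W N, htop, Y.image (fun w : FreeGroup (Fin n) => (w : N.Grp)), ?_⟩
      have : ((Y.image (fun w : FreeGroup (Fin n) => (w : N.Grp)) : Finset N.Grp) : Set N.Grp) =
          Xset Y N := by
        rw [Xset, Finset.coe_image]
      rw [this]
      exact ⟨hc, hh, hf⟩
  rw [this]
  refine (measurableSet_setOfPred.1 measurableSet_virtCyclic).not.and ?_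
  exact Measurable.exists fun k => Measurable.exists fun W => Measurable.exists fun Y =>
    (Measurable.forall fun i => meas_ne_top W i).and ((meas_conn W Y).and
      ((meas_hyp W Y).and (meas_fine W Y)))

end Lift

end Pool.Agent.Lib.MP_53fefd_al
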